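import Pool.Agent.helper11.FR.Defs

open Finset

namespace FR11

theorem h50_mono {x : ℝ} (hx : 2 ≤ x) {q : ℕ} (hq : 1 ≤ q) {S S' : Finset ℕ} {j : ℕ}
    (hS' : ∀ d ∈ S', d < j) (hSS : S ⊆ S') : Wt x q S j ≤ Wt x q S' j := by
  have hx0 : 0 < x := by linarith
  have h2 : 0 ≤ 2 / x := by positivity
  have h21 : 2 / x ≤ 1 := by rw [div_le_one hx0]; exact hx
  have hE : (∑ d ∈ S, min (j - d) q) + (S' \ S).card ≤ ∑ d ∈ S', min (j - d) q := by
    rw [← Finset.sum_sdiff hSS, add_comm]
    have h1 : (S' \ S).card ≤ ∑ d ∈ S' \ S, min (j - d) q := by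
      rw [card_eq_sum_ones]
      apply Finset.sum_le_sum
      intro d hd
      have := hS' d (mem_sdiff.1 hd).1
      omega
    omega
  have hc : cl q S' ≤ cl q S + (S' \ S).card := by
    unfold cl
    have h1 : S'.image (fun d => d % q) ⊆
        S.image (fun d => d % q) ∪ (S' \ S).image (fun d => d % q) := by
      rw [← image_union, union_sdiff_of_subset hSS]
    have h3 := card_le_card h1
    have h4 := card_union_le (S.image (fun d => d % q)) ((S' \ S).image (fun d => d % q))
    have h5 : ((S' \ S).image (fun d => d % q)).card ≤ (S' \ S).card := card_image_le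
    omega
  have h6 : ∀ k : ℕ, x ^ k * (2 / x) ^ k = 2 ^ k := by
    intro k
    rw [← mul_pow, mul_div_cancel₀ _ hx0.ne']
  unfold Wt
  calc x ^ (∑ d ∈ S, min (j - d) q) * (2 / x) ^ (cl q S)
      ≤ x ^ (∑ d ∈ S, min (j - d) q) * (2 / x) ^ (cl q S) * 2 ^ (S' \ S).card :=
        le_mul_of_one_le_right (by positivity) (one_le_pow₀ (by norm_num))
    _ = x ^ ((∑ d ∈ S, min (j - d) q) + (S' \ S).card) *
          (2 / x) ^ (cl q S + (S' \ S).card) := by
      rw [pow_add, pow_add, ← h6]
      ring
    _ ≤ x ^ (∑ d ∈ S', min (j - d) q) * (2 / x) ^ (cl q S') := by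
      apply mul_le_mul
      · exact pow_le_pow_right₀ (by linarith) hE
      · exact pow_le_pow_of_le_one h2 h21 hc
      · positivity
      · positivity

/-- the window: sum of the exponents at `j + 1` -/
theorem h50_sum_succ {q : ℕ} {S : Finset ℕ} {j : ℕ} (hS : ∀ d ∈ S, d < j) :
    ∑ d ∈ S, min (j + 1 - d) q = ∑ d ∈ S, min (j - d) q + (S.filter (fun d => j - d < q)).card := by
  rw [card_filter, ← Finset.sum_add_distrib]
  apply Finset.sum_congr rfl
  intro d hd
  have := hS d hd
  split_ifs with h <;> omega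

/-- numbers in an interval of length `q` have distinct residues -/
theorem h50_inj {q : ℕ} {W : Finset ℕ} {j : ℕ} (hW : ∀ d ∈ W, d ≤ j ∧ j - d < q) :
    (W.image (fun d => d % q)).card = W.card := by
  apply card_image_of_injOn
  intro a ha b hb hab
  have h1 := hW a ha
  have h2 := hW b hb
  simp only at hab
  by_contra hne
  rcases Nat.lt_or_gt_of_ne hne with h | h
  · have h3 : q ∣ b - a := (Nat.modEq_iff_dvd' h.le).1 hab
    have h4 := Nat.le_of_dvd (by omega) h3
    omega
  · have h3 : q ∣ a - b := (Nat.modEq_iff_dvd' h.le).1 hab.symm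
    have h4 := Nat.le_of_dvd (by omega) h3
    omega

/-- M3a: step without loss -/
theorem Wt_step {x : ℝ} (hx : 2 ≤ x) {q : ℕ} (hq : 1 ≤ q) {S S' : Finset ℕ} {j : ℕ}
    (hS : S ⊆ range j) (hne : S.Nonempty) (hS' : S' ⊆ insert j S) :
    Wt x q S' (j + 1) ≤ Wt x q S j * (2 * x) ^ (cl q S) := by
  have hx0 : 0 < x := by linarith
  have h2 : 0 ≤ 2 / x := by positivity
  have hlt : ∀ d ∈ S, d < j := fun d hd => mem_range.1 (hS hd)
  have hj : j ∉ S := fun h => lt_irrefl _ (hlt j h)
  have h1 : Wt x q S' (j + 1) ≤ Wt x q (insert j S) (j + 1) := by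
    apply h50_mono hx hq _ hS'
    intro d hd
    rcases mem_insert.1 hd with h | h
    · omega
    · have := hlt d h
      omega
  have hE : ∑ d ∈ insert j S, min (j + 1 - d) q =
      ∑ d ∈ S, min (j - d) q + ((S.filter (fun d => j - d < q)).card + 1) := by
    rw [sum_insert hj, h50_sum_succ hlt]
    have : min (j + 1 - j) q = 1 := by omega
    omega
  have hw : (S.filter (fun d => j - d < q)).card + 1 ≤ cl q (insert j S) := by
    have h3 : (insert j (S.filter (fun d => j - d < q))).card =
        (S.filter (fun d => j - d < q)).card + 1 := by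
      apply card_insert_of_notMem
      intro h
      exact hj (mem_filter.1 h).1
    rw [← h3, ← h50_inj (q := q) (j := j)]
    · unfold cl
      apply card_le_card
      apply image_subset_image
      apply insert_subset_insert
      exact filter_subset _ _
    · intro d hd
      rcases mem_insert.1 hd with h | h
      · subst h
        exact ⟨le_rfl, by omega⟩
      · have h4 := mem_filter.1 h
        exact ⟨(hlt d h4.1).le, h4.2⟩
  have hc : cl q (insert j S) ≤ cl q S + 1 := by
    unfold cl
    rw [image_insert]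
    exact card_insert_le _ _
  have hc1 : 1 ≤ cl q S := by
    unfold cl
    exact card_pos.2 (hne.image _)
  have h6 : ∀ k : ℕ, x ^ k * (2 / x) ^ k = 2 ^ k := by
    intro k
    rw [← mul_pow, mul_div_cancel₀ _ hx0.ne']
  refine h1.trans ?_
  unfold Wt
  rw [hE, pow_add]
  calc x ^ (∑ d ∈ S, min (j - d) q) * x ^ ((S.filter (fun d => j - d < q)).card + 1) *
        (2 / x) ^ (cl q (insert j S))
      ≤ x ^ (∑ d ∈ S, min (j - d) q) * x ^ (cl q (insert j S)) *
        (2 / x) ^ (cl q (insert j S)) := by
        apply mul_le_mul_of_nonneg_right _ (by positivity)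
        apply mul_le_mul_of_nonneg_left _ (by positivity)
        exact pow_le_pow_right₀ (by linarith) hw
    _ = x ^ (∑ d ∈ S, min (j - d) q) * 2 ^ (cl q (insert j S)) := by
        rw [mul_assoc, h6]
    _ ≤ x ^ (∑ d ∈ S, min (j - d) q) * (2 ^ (cl q S) * 2 ^ (cl q S)) := by
        apply mul_le_mul_of_nonneg_left _ (by positivity)
        rw [← pow_add]
        exact pow_le_pow_right₀ (by norm_num) (by omega)
    _ = x ^ (∑ d ∈ S, min (j - d) q) * (2 / x) ^ (cl q S) * (2 * x) ^ (cl q S) := by
        rw [← h6 (cl q S), mul_pow]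
        have h7 := h6 (cl q S)
        calc _ = x ^ (∑ d ∈ S, min (j - d) q) * (2 / x) ^ (cl q S) *
              (x ^ (cl q S) * (x ^ (cl q S) * (2 / x) ^ (cl q S))) := by ring
          _ = _ := by rw [h7]; ring

/-- M3b: step with loss of `e` -/
theorem Wt_loss {x : ℝ} (hx : 2 ≤ x) {q : ℕ} (hq : 1 ≤ q) {S S' : Finset ℕ} {j e : ℕ}
    (hS : S ⊆ range j) (he : e ∈ S) (hS' : S' ⊆ S.erase e) :
    Wt x q S' (j + 1) ≤ Wt x q S j * (2 * x) ^ (cl q (S.filter (fun d => d < e))) * (1 / 2) := by
  have hx0 : 0 < x := by linarith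
  have h2 : 0 ≤ 2 / x := by positivity
  have h21 : 2 / x ≤ 1 := by rw [div_le_one hx0]; exact hx
  have hlt : ∀ d ∈ S, d < j := fun d hd => mem_range.1 (hS hd)
  have hej := hlt e he
  have h1 : Wt x q S' (j + 1) ≤ Wt x q (S.erase e) (j + 1) := by
    apply h50_mono hx hq _ hS'
    intro d hd
    have := hlt d (mem_of_mem_erase hd)
    omega
  set p := cl q (S.filter (fun d => d < e)) with hp
  -- the window without e
  have hw : ((S.erase e).filter (fun d => j - d < q)).card + 1 ≤ p + min (j - e) q := by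
    have h3 : (S.erase e).filter (fun d => j - d < q) ⊆
        (S.filter (fun d => d < e)).filter (fun d => j - d < q) ∪
          (Ioo e j).filter (fun d => j - d < q) := by
      intro d hd
      have h4 := mem_filter.1 hd
      have h5 := mem_erase.1 h4.1
      have h6 := hlt d h5.2
      rcases Nat.lt_or_gt_of_ne h5.1 with h | h
      · exact mem_union_left _ (mem_filter.2 ⟨mem_filter.2 ⟨h5.2, h⟩, h4.2⟩)
      · exact mem_union_right _ (mem_filter.2 ⟨mem_Ioo.2 ⟨h, h6⟩, h4.2⟩)
    have h7 := (card_le_card h3).trans (card_union_le _ _)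
    have h8 : ((S.filter (fun d => d < e)).filter (fun d => j - d < q)).card ≤ p := by
      rw [hp, ← h50_inj (q := q) (j := j)]
      · unfold cl
        apply card_le_card
        apply image_subset_image
        exact filter_subset _ _
      · intro d hd
        have h9 := mem_filter.1 hd
        exact ⟨(hlt d (mem_filter.1 h9.1).1).le, h9.2⟩
    have h10 : ((Ioo e j).filter (fun d => j - d < q)).card ≤ min (j - e) q - 1 := by
      have h11 : (Ioo e j).filter (fun d => j - d < q) ⊆ Ioo (max e (j - q)) j := by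
        intro d hd
        have h12 := mem_filter.1 hd
        have h13 := mem_Ioo.1 h12.1
        have h14 := h12.2
        rw [mem_Ioo]
        omega
      have h15 := card_le_card h11
      rw [Nat.card_Ioo] at h15
      omega
    have : 1 ≤ min (j - e) q := by omega
    omega
  have hE : ∑ d ∈ S.erase e, min (j + 1 - d) q + 1 ≤ ∑ d ∈ S, min (j - d) q + p := by
    rw [h50_sum_succ (fun d hd => hlt d (mem_of_mem_erase hd)),
      ← Finset.add_sum_erase S (fun d => min (j - d) q) he]
    omega
  have hc : cl q S ≤ cl q (S.erase e) + 1 := by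
    unfold cl
    have h3 : S.image (fun d => d % q) ⊆ insert (e % q) ((S.erase e).image (fun d => d % q)) := by
      rw [← image_insert (fun d => d % q), insert_erase he]
    exact (card_le_card h3).trans (card_insert_le _ _)
  refine h1.trans ?_
  have key : x ^ (∑ d ∈ S.erase e, min (j + 1 - d) q + 1) * (2 / x) ^ (cl q (S.erase e) + 1) ≤
      x ^ (∑ d ∈ S, min (j - d) q + p) * (2 / x) ^ (cl q S) := by
    apply mul_le_mul
    · exact pow_le_pow_right₀ (by linarith) hE
    · exact pow_le_pow_of_le_one h2 h21 hc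
    · positivity
    · positivity
  have hL : x ^ (∑ d ∈ S.erase e, min (j + 1 - d) q + 1) * (2 / x) ^ (cl q (S.erase e) + 1) =
      2 * Wt x q (S.erase e) (j + 1) := by
    unfold Wt
    rw [pow_succ, pow_succ]
    calc _ = x ^ (∑ d ∈ S.erase e, min (j + 1 - d) q) * (2 / x) ^ (cl q (S.erase e)) *
          (x * (2 / x)) := by ring
      _ = _ := by rw [mul_div_cancel₀ _ hx0.ne']; ring
  have hR : x ^ (∑ d ∈ S, min (j - d) q + p) * (2 / x) ^ (cl q S) = Wt x q S j * x ^ p := by
    unfold Wt
    rw [pow_add]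
    ring
  rw [hL, hR] at key
  have hW0 : 0 ≤ Wt x q S j := by
    unfold Wt
    positivity
  have h16 : Wt x q S j * x ^ p ≤ Wt x q S j * (2 * x) ^ p := by
    apply mul_le_mul_of_nonneg_left _ hW0
    exact pow_le_pow_left₀ hx0.le (by linarith) _
  linarith

/-- M3c: start -/
theorem Wt_start {x : ℝ} (hx : 2 ≤ x) {q : ℕ} (hq : 1 ≤ q) {S' : Finset ℕ} {j : ℕ}
    (hS' : S' ⊆ {j}) : Wt x q S' (j + 1) ≤ 2 := by
  have hx0 : 0 < x := by linarith
  have h1 : Wt x q S' (j + 1) ≤ Wt x q {j} (j + 1) := by
    apply h50_mono hx hq _ hS'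
    intro d hd
    rw [mem_singleton] at hd
    omega
  refine h1.trans (le_of_eq ?_)
  unfold Wt cl
  rw [sum_singleton, image_singleton, card_singleton]
  have : min (j + 1 - j) q = 1 := by omega
  rw [this, pow_one, pow_one, mul_div_cancel₀ _ hx0.ne']

/-- M3d: end -/
theorem Wt_end {x : ℝ} (hx : 2 ≤ x) {q : ℕ} (hq : 1 ≤ q) {S : Finset ℕ} {n : ℕ}
    (hS : S ⊆ range n) : x ^ (q * S.card) ≤ x ^ (q * q) * (x / 2) ^ q * Wt x q S n := by
  have hx0 : 0 < x := by linarith
  have h2 : 0 ≤ 2 / x := by positivity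
  have h21 : 2 / x ≤ 1 := by rw [div_le_one hx0]; exact hx
  have hlt : ∀ d ∈ S, d < n := fun d hd => mem_range.1 (hS hd)
  have hw : (S.filter (fun d => n - d < q)).card ≤ q := by
    have h7 : S.filter (fun d => n - d < q) ⊆ Ico (n + 1 - q) n := by
      intro d hd
      have h4 := mem_filter.1 hd
      have h5 := hlt d h4.1
      have h6 := h4.2
      rw [mem_Ico]
      omega
    have h8 := card_le_card h7
    rw [Nat.card_Ico] at h8
    omega
  have hE : q * S.card ≤ q * q + ∑ d ∈ S, min (n - d) q := by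
    have h9 : q * S.card ≤ q * (S.filter (fun d => n - d < q)).card + ∑ d ∈ S, min (n - d) q := by
      rw [card_filter, card_eq_sum_ones, mul_sum, mul_sum, ← Finset.sum_add_distrib]
      apply Finset.sum_le_sum
      intro d hd
      split_ifs with h
      · omega
      · have : q ≤ n - d := by omega
        omega
    have h10 : q * (S.filter (fun d => n - d < q)).card ≤ q * q := Nat.mul_le_mul_left q hw
    omega
  have hc : cl q S ≤ q := by
    unfold cl
    have h11 : S.image (fun d => d % q) ⊆ range q := by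
      intro r hr
      obtain ⟨d, _, rfl⟩ := mem_image.1 hr
      exact mem_range.2 (Nat.mod_lt _ (by omega))
    have h12 := card_le_card h11
    rwa [card_range] at h12
  have h13 : 1 ≤ (x / 2) ^ q * (2 / x) ^ (cl q S) := by
    calc (1 : ℝ) = (x / 2) ^ q * (2 / x) ^ q := by
          rw [← mul_pow]
          have : x / 2 * (2 / x) = 1 := by field_simp
          rw [this, one_pow]
      _ ≤ _ := by
          apply mul_le_mul_of_nonneg_left _ (by positivity)
          exact pow_le_pow_of_le_one h2 h21 hc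
  calc x ^ (q * S.card) ≤ x ^ (q * q + ∑ d ∈ S, min (n - d) q) :=
        pow_le_pow_right₀ (by linarith) hE
    _ = x ^ (q * q) * x ^ (∑ d ∈ S, min (n - d) q) * 1 := by rw [pow_add, mul_one]
    _ ≤ x ^ (q * q) * x ^ (∑ d ∈ S, min (n - d) q) * ((x / 2) ^ q * (2 / x) ^ (cl q S)) := by
        apply mul_le_mul_of_nonneg_left h13 (by positivity)
    _ = x ^ (q * q) * (x / 2) ^ q * Wt x q S n := by
        unfold Wt
        ring

end FR11
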