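import Pool.Agent.helper11.FR.Defs

open Polynomial Finset

namespace FR11

variable {F : Type} [Field F]

theorem ex_snoc_lt {T : ℕ} (α : Fin T → F) (c : F) {i : ℕ} (hi : i < T) :
    ex (T + 1) (Fin.snoc (α := fun _ => F) α c) i = ex T α i := by
  have h1 : i < T + 1 := Nat.lt_succ_of_lt hi
  simp only [ex, hi, h1, dif_pos]
  have h2 : (⟨i, h1⟩ : Fin (T + 1)) = Fin.castSucc ⟨i, hi⟩ := rfl
  rw [h2, Fin.snoc_castSucc]

theorem ex_snoc_last {T : ℕ} (α : Fin T → F) (c : F) :
    ex (T + 1) (Fin.snoc (α := fun _ => F) α c) T = c := by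
  have h1 : T < T + 1 := Nat.lt_succ_self T
  simp only [ex, h1, dif_pos]
  have h2 : (⟨T, h1⟩ : Fin (T + 1)) = Fin.last T := rfl
  rw [h2, Fin.snoc_last]

/-- M1 -/
theorem tree [Fintype F] (T : ℕ) (w : ℕ → (ℕ → F) → ℝ) (h0 : ∀ m a, 0 ≤ w m a)
    (hloc : ∀ m a a', (∀ i ≤ m, a i = a' i) → w m a = w m a')
    (hw : ∀ m a, ∑ c : F, w m (Function.update a m c) ≤ Fintype.card F) :
    ∑ α : Fin T → F, ∏ m ∈ range T, w m (ex T α) ≤ (Fintype.card F : ℝ) ^ T := by
  induction T with
  | zero => simp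
  | succ T ih =>
    have key : ∀ (α : Fin T → F) (c : F),
        ∏ m ∈ range (T + 1), w m (ex (T + 1) (Fin.snoc (α := fun _ => F) α c)) =
          (∏ m ∈ range T, w m (ex T α)) * w T (Function.update (ex T α) T c) := by
      intro α c
      rw [prod_range_succ]
      congr 1
      · refine prod_congr rfl fun m hm => hloc m _ _ fun i hi => ?_
        exact ex_snoc_lt α c (lt_of_le_of_lt hi (mem_range.1 hm))
      · refine hloc T _ _ fun i hi => ?_
        rcases hi.lt_or_eq with hi' | hi'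
        · rw [ex_snoc_lt α c hi', Function.update_of_ne hi'.ne]
        · rw [hi', ex_snoc_last, Function.update_self]
    rw [← (Fin.snocEquiv (fun _ : Fin (T + 1) => F)).sum_comp, Fintype.sum_prod_type_right]
    calc ∑ y : Fin T → F, ∑ x : F, ∏ m ∈ range (T + 1),
          w m (ex (T + 1) ((Fin.snocEquiv (fun _ : Fin (T + 1) => F)) (x, y)))
        = ∑ y : Fin T → F, (∏ m ∈ range T, w m (ex T y)) *
            ∑ x : F, w T (Function.update (ex T y) T x) := by
          refine sum_congr rfl fun y _ => ?_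
          rw [mul_sum]
          exact sum_congr rfl fun x _ => key y x
      _ ≤ ∑ y : Fin T → F, (∏ m ∈ range T, w m (ex T y)) * (Fintype.card F : ℝ) := by
          refine sum_le_sum fun y _ => mul_le_mul_of_nonneg_left (hw T _) ?_
          exact prod_nonneg fun m _ => h0 m _
      _ = (∑ y : Fin T → F, ∏ m ∈ range T, w m (ex T y)) * (Fintype.card F : ℝ) := by
          rw [sum_mul]
      _ ≤ (Fintype.card F : ℝ) ^ T * (Fintype.card F : ℝ) :=
          mul_le_mul_of_nonneg_right ih (Nat.cast_nonneg _)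
      _ = (Fintype.card F : ℝ) ^ (T + 1) := (pow_succ _ _).symm

end FR11
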