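import Pool.Agent.helper11.FR.Tests
import Pool.Agent.helper11.FR.Tree
import Pool.Agent.helper11.FR.Pot

open Polynomial Finset

namespace FR11

open Classical in
/-- the elements which are minimal in their residue class -/
noncomputable def mins (q : ℕ) (S : Finset ℕ) : Finset ℕ :=
  S.filter (fun d => ∀ d' < d, d' ∈ S → d' % q ≠ d % q)

theorem card_mins (q : ℕ) (S : Finset ℕ) : (mins q S).card = cl q S := by
  classical
  have hinj : Set.InjOn (fun d => d % q) (mins q S : Set ℕ) := by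
    intro d hd d' hd' he
    have h1 := mem_filter.mp (mem_coe.mp hd)
    have h2 := mem_filter.mp (mem_coe.mp hd')
    rcases lt_trichotomy d d' with h3 | h3 | h3
    · exact absurd he (h2.2 d h3 h1.1)
    · exact h3
    · exact absurd he.symm (h1.2 d' h3 h2.1)
  rw [cl, ← card_image_of_injOn hinj]
  congr 1
  ext r
  simp only [mem_image]
  constructor
  · rintro ⟨d, hd, rfl⟩
    exact ⟨d, (mem_filter.mp hd).1, rfl⟩
  · rintro ⟨d, hd, rfl⟩
    have hex : ∃ u, u ∈ S ∧ u % q = d % q := ⟨d, hd, rfl⟩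
    refine ⟨Nat.find hex, mem_filter.mpr ⟨(Nat.find_spec hex).1, ?_⟩, (Nat.find_spec hex).2⟩
    intro d' hd' hS he
    exact Nat.find_min hex hd' ⟨hS, he.trans (Nat.find_spec hex).2⟩

theorem mins_filter (q : ℕ) (S : Finset ℕ) (e : ℕ) :
    (mins q S).filter (fun d => d < e) = mins q (S.filter (fun d => d < e)) := by
  classical
  ext d
  simp only [mins, mem_filter]
  constructor
  · rintro ⟨⟨h1, h2⟩, h3⟩
    exact ⟨⟨h1, h3⟩, fun d' hd' h4 => h2 d' hd' h4.1⟩
  · rintro ⟨⟨h1, h3⟩, h2⟩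
    exact ⟨⟨h1, fun d' hd' h4 => h2 d' hd' ⟨h4, hd'.trans h3⟩⟩, h3⟩

variable {F : Type} [Field F]

theorem prod_noloss {q : ℕ} {a : ℕ → F} {j : ℕ} (X Y : ℝ)
    (H : ∀ h ∈ KK q a j, h.natDegree < j → phi q a j h = 0) :
    ∏ d ∈ TT q a j, (open Classical in if IsP q a j d then X else Y) = X ^ (cl q (SS q a j)) := by
  classical
  have h1 : TT q a j = mins q (SS q a j) := by
    ext d
    simp only [TT, mins, mem_filter, mem_range]
    constructor
    · rintro ⟨_, h2, h3, _⟩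
      exact ⟨h2, h3⟩
    · rintro ⟨h2, h3⟩
      have h4 := (mem_SS.mp h2).1
      exact ⟨h4, h2, h3, fun h hK hlt => H h hK (hlt.trans h4)⟩
  have h2 : ∀ d ∈ TT q a j, (if IsP q a j d then X else Y) = X := by
    intro d hd
    have h3 := (mem_filter.mp hd).2
    have h4 := (mem_SS.mp h3.1).1
    exact if_pos ⟨h3, fun h hK hle => H h hK (lt_of_le_of_lt hle h4)⟩
  rw [prod_congr rfl h2, prod_const, h1, card_mins]

theorem prod_loss {q : ℕ} {a : ℕ → F} {j e : ℕ} (X Y : ℝ) (he : e ∈ SS q a j)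
    (hlow : ∀ h ∈ KK q a j, h.natDegree < e → phi q a j h = 0)
    (hex : ∃ h ∈ KK q a j, h.natDegree = e ∧ phi q a j h ≠ 0) :
    ∏ d ∈ TT q a j, (open Classical in if IsP q a j d then X else Y) =
      X ^ (cl q ((SS q a j).filter (fun d => d < e))) *
        (open Classical in if e ∈ mins q (SS q a j) then Y else 1) := by
  classical
  obtain ⟨h₀, hh₀, hd₀, hp₀⟩ := hex
  have h1 : TT q a j = (mins q (SS q a j)).filter (fun d => d ≤ e) := by
    ext d
    simp only [TT, mins, mem_filter, mem_range]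
    constructor
    · rintro ⟨_, h2, h3, h4⟩
      refine ⟨⟨h2, h3⟩, ?_⟩
      by_contra h5
      exact hp₀ (h4 h₀ hh₀ (by omega))
    · rintro ⟨⟨h2, h3⟩, h5⟩
      exact ⟨(mem_SS.mp h2).1, h2, h3, fun h hK hlt => hlow h hK (by omega)⟩
  have h6 : (mins q (SS q a j)).filter (fun d => d ≤ e) =
      (mins q (SS q a j)).filter (fun d => d < e) ∪
        (mins q (SS q a j)).filter (fun d => d = e) := by
    ext d
    simp only [mem_filter, mem_union]
    constructor
    · rintro ⟨h2, h3⟩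
      rcases lt_or_eq_of_le h3 with h4 | h4
      · exact Or.inl ⟨h2, h4⟩
      · exact Or.inr ⟨h2, h4⟩
    · rintro (⟨h2, h3⟩ | ⟨h2, h3⟩)
      · exact ⟨h2, h3.le⟩
      · exact ⟨h2, h3.le⟩
  have h7 : Disjoint ((mins q (SS q a j)).filter (fun d => d < e))
      ((mins q (SS q a j)).filter (fun d => d = e)) := by
    rw [disjoint_left]
    intro d h2 h3
    have h4 := (mem_filter.mp h2).2
    have h5 := (mem_filter.mp h3).2
    omega
  have hT : ∀ d ∈ mins q (SS q a j), d ≤ e → IsT q a j d := by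
    intro d hd hle
    have : d ∈ TT q a j := by
      rw [h1]
      exact mem_filter.mpr ⟨hd, hle⟩
    exact (mem_filter.mp this).2
  rw [h1, h6, prod_union h7]
  congr 1
  · have h8 : ∀ d ∈ (mins q (SS q a j)).filter (fun d => d < e),
        (if IsP q a j d then X else Y) = X := by
      intro d hd
      obtain ⟨h2, h3⟩ := mem_filter.mp hd
      exact if_pos ⟨hT d h2 h3.le, fun h hK hle => hlow h hK (by omega)⟩
    rw [prod_congr rfl h8, prod_const, mins_filter, card_mins]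
  · have hnP : ¬ IsP q a j e := fun hP => hp₀ (hP.2 h₀ hh₀ hd₀.le)
    by_cases h9 : e ∈ mins q (SS q a j)
    · have h10 : (mins q (SS q a j)).filter (fun d => d = e) = {e} := by
        ext d
        simp only [mem_filter, mem_singleton]
        constructor
        · exact fun h => h.2
        · rintro rfl
          exact ⟨h9, rfl⟩
      rw [h10, prod_singleton, if_neg hnP, if_pos h9]
    · have h10 : (mins q (SS q a j)).filter (fun d => d = e) = ∅ := by
        ext d
        simp only [mem_filter, notMem_empty, iff_false]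
        rintro ⟨h2, rfl⟩
        exact h9 h2
      rw [h10, prod_empty, if_neg h9]

theorem cl_pos {q : ℕ} {S : Finset ℕ} (h : S.Nonempty) : 1 ≤ cl q S := by
  rw [cl]
  exact card_pos.mpr (h.image _)

/-- one step of the potential -/
theorem step {q : ℕ} (hq : 2 ≤ q) {a : ℕ → F} {j : ℕ} {x ρ : ℝ} (hx : 2 ≤ x) (hρ0 : 0 < ρ)
    (hρ1 : ρ ≤ 1) (hne : (SS q a j).Nonempty) :
    Wt x q (SS q a (j + 1)) (j + 1) ≤ Wt x q (SS q a j) j *
      (ρ * ∏ d ∈ TT q a j, (open Classical in if IsP q a j d then 2 * x / ρ else 1 / 2 / ρ)) := by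
  classical
  have hS : SS q a j ⊆ range j := by
    intro d hd
    exact mem_range.mpr (mem_SS.mp hd).1
  have hW0 : 0 ≤ Wt x q (SS q a j) j := by
    unfold Wt
    positivity
  have hpow : ∀ c : ℕ, (2 * x) ^ c ≤ (2 * x / ρ) ^ c := by
    intro c
    apply pow_le_pow_left₀ (by linarith)
    rw [le_div_iff₀ hρ0]
    nlinarith
  have hpow1 : ∀ c : ℕ, 1 ≤ c → (2 * x) ^ c ≤ ρ * (2 * x / ρ) ^ c := by
    intro c hc
    obtain ⟨b, rfl⟩ : ∃ b, c = b + 1 := ⟨c - 1, by omega⟩
    have h1 : ρ * (2 * x / ρ) ^ (b + 1) = (2 * x / ρ) ^ b * (2 * x) := by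
      rw [pow_succ]
      field_simp
    rw [h1, pow_succ]
    exact mul_le_mul_of_nonneg_right (hpow b) (by linarith)
  rcases trans q a j with ⟨H, hsub⟩ | ⟨e, he, hlow, hex, hsub⟩
  · refine (Wt_step hx (by omega) hS hne hsub).trans ?_
    rw [prod_noloss _ _ H]
    exact mul_le_mul_of_nonneg_left (hpow1 _ (cl_pos hne)) hW0
  · have h1 := Wt_loss hx (by omega : 1 ≤ q) hS he hsub
    refine h1.trans ?_
    rw [prod_loss _ _ he hlow hex, mul_assoc]
    apply mul_le_mul_of_nonneg_left _ hW0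
    set p := cl q ((SS q a j).filter (fun d => d < e)) with hp
    have hp0 : (0 : ℝ) ≤ (2 * x) ^ p := by positivity
    by_cases h9 : e ∈ mins q (SS q a j)
    · rw [if_pos h9]
      have h2 : ρ * ((2 * x / ρ) ^ p * (1 / 2 / ρ)) = (2 * x / ρ) ^ p * (1 / 2) := by
        field_simp
      rw [h2]
      exact mul_le_mul_of_nonneg_right (hpow p) (by norm_num)
    · rw [if_neg h9, mul_one]
      have h3 : ((SS q a j).filter (fun d => d < e)).Nonempty := by
        have h4 : ¬ ∀ d' < e, d' ∈ SS q a j → d' % q ≠ e % q := fun h5 =>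
          h9 (mem_filter.mpr ⟨he, h5⟩)
        push Not at h4
        obtain ⟨d', h5, h6, _⟩ := h4
        exact ⟨d', mem_filter.mpr ⟨h6, h5⟩⟩
      have h4 := hpow1 p (cl_pos h3)
      nlinarith

theorem iter {q : ℕ} (hq : 2 ≤ q) {a : ℕ → F} {j0 : ℕ} {x ρ : ℝ} (hx : 2 ≤ x) (hρ0 : 0 < ρ)
    (hρ1 : ρ ≤ 1) (h0 : SS q a j0 = ∅) (k : ℕ)
    (hne : ∀ j, j0 < j → j < j0 + 1 + k → (SS q a j).Nonempty) :
    Wt x q (SS q a (j0 + 1 + k)) (j0 + 1 + k) ≤ 2 * ρ ^ k *
      ∏ j ∈ Ioo j0 (j0 + 1 + k), ∏ d ∈ TT q a j,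
        (open Classical in if IsP q a j d then 2 * x / ρ else 1 / 2 / ρ) := by
  classical
  induction k with
  | zero =>
    have h1 : Ioo j0 (j0 + 1 + 0) = ∅ := by
      ext i
      simp only [mem_Ioo, notMem_empty, iff_false]
      omega
    rw [h1, prod_empty, pow_zero, mul_one, mul_one]
    have h2 : SS q a (j0 + 1) ⊆ {j0} := by
      rcases trans q a j0 with ⟨_, hsub⟩ | ⟨e, he, _⟩
      · rw [h0] at hsub
        exact hsub
      · rw [h0] at he
        exact absurd he (notMem_empty e)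
    exact Wt_start hx (by omega) h2
  | succ k ih =>
    have h1 : Ioo j0 (j0 + 1 + (k + 1)) = insert (j0 + 1 + k) (Ioo j0 (j0 + 1 + k)) := by
      ext i
      simp only [mem_Ioo, mem_insert]
      omega
    have h2 : (j0 + 1 + k) ∉ Ioo j0 (j0 + 1 + k) := by
      simp
    rw [h1, prod_insert h2]
    have h3 := ih (fun j hj hj' => hne j hj (by omega))
    have h4 := step hq hx hρ0 hρ1 (hne (j0 + 1 + k) (by omega) (by omega))
    have h5 : 0 ≤ ρ * ∏ d ∈ TT q a (j0 + 1 + k),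
        (if IsP q a (j0 + 1 + k) d then 2 * x / ρ else 1 / 2 / ρ) := by
      refine mul_nonneg hρ0.le (prod_nonneg (fun d _ => ?_))
      split_ifs
      · have : (0:ℝ) < x := by linarith
        positivity
      · positivity
    refine h4.trans ((mul_le_mul_of_nonneg_right h3 h5).trans (le_of_eq ?_))
    rw [pow_succ]
    ring

theorem SS_zero (q : ℕ) (a : ℕ → F) : SS q a 0 = ∅ := by
  ext d
  simp [mem_SS]

theorem Wt_le {q : ℕ} (hq : 2 ≤ q) (a : ℕ → F) (n : ℕ) {x ρ : ℝ} (hx : 2 ≤ x) (hρ0 : 0 < ρ)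
    (hρ1 : ρ ≤ 1) :
    Wt x q (SS q a n) n ≤ 1 + ∑ j0 ∈ range n, 2 * ρ ^ (n - 1 - j0) *
      ∏ m ∈ range ((q + 1) * n), ww q j0 n (2 * x / ρ) (1 / 2 / ρ) m a := by
  classical
  have hx0 : 0 < x := by linarith
  have hterm : ∀ j0 ∈ range n, 0 ≤ 2 * ρ ^ (n - 1 - j0) *
      ∏ m ∈ range ((q + 1) * n), ww q j0 n (2 * x / ρ) (1 / 2 / ρ) m a := by
    intro j0 _
    refine mul_nonneg (by positivity) (prod_nonneg (fun m _ => ?_))
    exact ww_nonneg (by positivity) (by positivity) m a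
  by_cases hne : SS q a n = ∅
  · have h1 : Wt x q (SS q a n) n = 1 := by
      rw [hne]
      simp [Wt, cl]
    rw [h1]
    have := sum_nonneg hterm
    linarith
  · set j0 := Nat.findGreatest (fun j => SS q a j = ∅) n with hj0
    have h1 : SS q a j0 = ∅ := Nat.findGreatest_spec (P := fun j => SS q a j = ∅)
      (Nat.zero_le n) (SS_zero q a)
    have h2 : j0 ≤ n := Nat.findGreatest_le n
    have h3 : j0 < n := by
      rcases lt_or_eq_of_le h2 with h4 | h4
      · exact h4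
      · rw [h4] at h1
        exact absurd h1 hne
    obtain ⟨k, hk⟩ : ∃ k, n = j0 + 1 + k := ⟨n - (j0 + 1), by omega⟩
    have h4 : ∀ j, j0 < j → j < j0 + 1 + k → (SS q a j).Nonempty := by
      intro j hj hj'
      rw [nonempty_iff_ne_empty]
      exact Nat.findGreatest_is_greatest (P := fun j => SS q a j = ∅) hj (by omega)
    have h5 := iter hq hx hρ0 hρ1 h1 k h4
    rw [← hk] at h5
    rw [← prod_ww hq (2 * x / ρ) (1 / 2 / ρ) a] at h5
    have h6 := single_le_sum hterm (mem_range.mpr h3)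
    have h7 : n - 1 - j0 = k := by omega
    rw [h7] at h6
    linarith

/-- the main estimate -/
theorem main_est [Fintype F] (q n : ℕ) (hq : 2 ≤ q) (hQ : 8 ≤ Fintype.card F) :
    ∑ α : Fin ((q + 1) * n) → F,
        (((Fintype.card F : ℝ) / 4) ^ (q * (SS q (ex _ α) n).card)) ≤
      (((Fintype.card F : ℝ) / 4) ^ (q * q) * (((Fintype.card F : ℝ) / 4) / 2) ^ q *
        (1 + 4 * Fintype.card F)) * (Fintype.card F : ℝ) ^ ((q + 1) * n) := by
  classical
  set Q : ℝ := (Fintype.card F : ℝ) with hQd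
  have hQ8 : (8 : ℝ) ≤ Q := by
    rw [hQd]
    exact_mod_cast hQ
  set x : ℝ := Q / 4 with hxd
  have hx : 2 ≤ x := by
    rw [hxd]; linarith
  set ρ : ℝ := 1 - 1 / (2 * Q) with hρd
  have hinv : 1 / (2 * Q) ≤ 1 / 16 := by
    rw [div_le_div_iff₀ (by linarith) (by norm_num)]
    linarith
  have hinv0 : 0 < 1 / (2 * Q) := by positivity
  have hρ0 : 0 < ρ := by
    rw [hρd]; linarith
  have hρ1 : ρ ≤ 1 := by
    rw [hρd]; linarith
  have hXY : 2 * x / ρ + (Q - 1) * (1 / 2 / ρ) ≤ Q := by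
    have h1 : 2 * x / ρ + (Q - 1) * (1 / 2 / ρ) = (Q - 1 / 2) / ρ := by
      rw [hxd]
      field_simp
      ring
    rw [h1, div_le_iff₀ hρ0, hρd]
    apply le_of_eq
    field_simp
  have hX0 : 0 ≤ 2 * x / ρ := by positivity
  have hY0 : 0 ≤ 1 / 2 / ρ := by positivity
  have hT : ∀ j0, ∑ α : Fin ((q + 1) * n) → F,
      ∏ m ∈ range ((q + 1) * n), ww q j0 n (2 * x / ρ) (1 / 2 / ρ) m (ex _ α) ≤
        Q ^ ((q + 1) * n) := by
    intro j0
    exact tree ((q + 1) * n) (ww q j0 n (2 * x / ρ) (1 / 2 / ρ)) (ww_nonneg hX0 hY0)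
      (fun m a a' h => ww_loc hq m a a' h) (fun m a => ww_sum hq hXY m a)
  have hE : ∀ α : Fin ((q + 1) * n) → F, x ^ (q * (SS q (ex _ α) n).card) ≤
      x ^ (q * q) * (x / 2) ^ q * (1 + ∑ j0 ∈ range n, 2 * ρ ^ (n - 1 - j0) *
      ∏ m ∈ range ((q + 1) * n), ww q j0 n (2 * x / ρ) (1 / 2 / ρ) m (ex _ α)) := by
    intro α
    have hS : SS q (ex _ α) n ⊆ range n := by
      intro d hd
      exact mem_range.mpr (mem_SS.mp hd).1
    refine (Wt_end hx (by omega) hS).trans ?_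
    exact mul_le_mul_of_nonneg_left (Wt_le hq (ex _ α) n hx hρ0 hρ1) (by positivity)
  have hgeo : ∑ j0 ∈ range n, 2 * ρ ^ (n - 1 - j0) ≤ 4 * Q := by
    rw [← mul_sum, sum_range_reflect (fun i => ρ ^ i) n]
    have hρne : ρ ≠ 1 := by
      rw [hρd]; intro h; linarith
    rw [geom_sum_eq hρne]
    have h1 : (ρ ^ n - 1) / (ρ - 1) = (1 - ρ ^ n) * (2 * Q) := by
      have h2 : ρ - 1 = -(1 / (2 * Q)) := by rw [hρd]; ring
      rw [h2]
      field_simp
      ring
    rw [h1]
    have h3 : 0 ≤ ρ ^ n := by positivity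
    nlinarith
  calc ∑ α : Fin ((q + 1) * n) → F, x ^ (q * (SS q (ex _ α) n).card)
      ≤ ∑ α : Fin ((q + 1) * n) → F, x ^ (q * q) * (x / 2) ^ q *
        (1 + ∑ j0 ∈ range n, 2 * ρ ^ (n - 1 - j0) *
          ∏ m ∈ range ((q + 1) * n), ww q j0 n (2 * x / ρ) (1 / 2 / ρ) m (ex _ α)) :=
        sum_le_sum (fun α _ => hE α)
    _ = x ^ (q * q) * (x / 2) ^ q * (Q ^ ((q + 1) * n) + ∑ j0 ∈ range n, 2 * ρ ^ (n - 1 - j0) *
          ∑ α : Fin ((q + 1) * n) → F,
          ∏ m ∈ range ((q + 1) * n), ww q j0 n (2 * x / ρ) (1 / 2 / ρ) m (ex _ α)) := by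
        rw [← mul_sum, sum_add_distrib, sum_comm]
        congr 2
        · simp [hQd]
        · refine sum_congr rfl (fun j0 _ => ?_)
          rw [mul_sum]
    _ ≤ x ^ (q * q) * (x / 2) ^ q * (Q ^ ((q + 1) * n) + ∑ j0 ∈ range n, 2 * ρ ^ (n - 1 - j0) *
          Q ^ ((q + 1) * n)) := by
        apply mul_le_mul_of_nonneg_left _ (by positivity)
        gcongr with j0 _
        exact hT j0
    _ = x ^ (q * q) * (x / 2) ^ q * ((1 + ∑ j0 ∈ range n, 2 * ρ ^ (n - 1 - j0)) *
          Q ^ ((q + 1) * n)) := by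
        rw [← sum_mul]
        ring
    _ ≤ x ^ (q * q) * (x / 2) ^ q * ((1 + 4 * Q) * Q ^ ((q + 1) * n)) := by
        apply mul_le_mul_of_nonneg_left _ (by positivity)
        apply mul_le_mul_of_nonneg_right _ (by positivity)
        linarith
    _ = (x ^ (q * q) * (x / 2) ^ q * (1 + 4 * Q)) * Q ^ ((q + 1) * n) := by ring

end FR11
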