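import Pool.Agent.helper11.FR.Defs

open Polynomial Finset

namespace FR11

variable {F : Type} [Field F]

/-- M5c: size of the radical -/
theorem card_Rad_le [Fintype F] (q : ℕ) (a : ℕ → F) (n : ℕ) :
    Nat.card (Rad q a n) ≤ (Fintype.card F) ^ (SS q a n).card := by
  classical
  set f : Rad q a n → ((SS q a n) → F) := fun h d => (h : F[X]).coeff (d : ℕ) with hf
  have hinj : Function.Injective f := by
    rintro ⟨h, hn, hk⟩ ⟨h', hn', hk'⟩ hh
    by_contra hne
    have hg : h - h' ≠ 0 := by
      intro h0
      apply hne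
      rw [Subtype.mk.injEq]
      exact sub_eq_zero.1 h0
    have hdeg : (h - h').natDegree < n :=
      lt_of_le_of_lt (Polynomial.natDegree_sub_le h h') (max_lt hn hn')
    have hmem : (h - h').natDegree ∈ SS q a n := by
      rw [mem_SS]
      refine ⟨hdeg, h - h', ?_, hg, rfl⟩
      rw [mem_KK]
      intro i hi
      rw [map_sub, hk i hi, hk' i hi, sub_zero]
    have h1 := congrFun hh ⟨(h - h').natDegree, hmem⟩
    simp only [hf] at h1
    have h2 : (h - h').leadingCoeff = 0 := by
      rw [Polynomial.leadingCoeff, Polynomial.coeff_sub]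
      exact sub_eq_zero.2 h1
    exact hg (Polynomial.leadingCoeff_eq_zero.1 h2)
  refine (Nat.card_le_card_of_injective f hinj).trans (le_of_eq ?_)
  rw [Nat.card_eq_fintype_card, Fintype.card_fun, Fintype.card_coe]

end FR11
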