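import Pool.Agent.helper11.FR.Defs

open Polynomial Finset

namespace FR11

variable {F : Type} [Field F]

/-- a sequence as a functional on polynomials -/
noncomputable def ct_lam (a : ℕ → F) : F[X] →ₗ[F] F :=
  Polynomial.lsum (fun m => LinearMap.toSpanSingleton F F (a m))

theorem ct_lam_monomial (a : ℕ → F) (m : ℕ) (c : F) : ct_lam a (monomial m c) = c * a m := by
  rw [ct_lam, Polynomial.lsum_apply, Polynomial.sum_monomial_index]
  · simp [LinearMap.toSpanSingleton_apply]
  · simp

theorem ct_lam_ex (T : ℕ) (α : Fin T → F) (f : F[X]) :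
    ct_lam (ex T α) f = ∑ m : Fin T, f.coeff m * α m := by
  have h1 : ∀ N, f.natDegree < N → ct_lam (ex T α) f = ∑ m ∈ range N, f.coeff m * ex T α m := by
    intro N hN
    rw [ct_lam, Polynomial.lsum_apply, Polynomial.sum_over_range' _ _ N hN]
    · simp [LinearMap.toSpanSingleton_apply]
    · intro i
      simp
  rw [h1 (T + (f.natDegree + 1)) (by omega)]
  rw [Finset.sum_range_add]
  have h2 : ∑ x ∈ range (f.natDegree + 1), f.coeff (T + x) * ex T α (T + x) = 0 := by
    apply Finset.sum_eq_zero
    intro x _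
    simp [ex]
  rw [h2, add_zero, Finset.sum_range]
  apply Finset.sum_congr rfl
  intro m _
  simp [ex, m.2]

theorem ct_expand [Fintype F] (e : ℕ) (f : F[X]) :
    f ^ (Fintype.card F) ^ e = expand F ((Fintype.card F) ^ e) f := by
  induction e generalizing f with
  | zero => simp
  | succ e ih =>
    rw [pow_succ, pow_mul, ih, mul_comm, ← Polynomial.expand_expand, FiniteField.expand_card]

theorem ct_lam_mul (q n : ℕ) (a : ℕ → F) (h x : F[X]) (hh : h.natDegree < n)
    (hx : x.natDegree < n) :
    ct_lam a (h * expand F q x + expand F q h * x) =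
      ∑ v ∈ range n, x.coeff v * phi q a v h := by
  have eh : h = ∑ u ∈ range n, monomial u (h.coeff u) := Polynomial.as_sum_range' h n hh
  have ex' : x = ∑ v ∈ range n, monomial v (x.coeff v) := Polynomial.as_sum_range' x n hx
  have e1 : expand F q x = ∑ v ∈ range n, monomial (v * q) (x.coeff v) := by
    conv_lhs => rw [ex']
    rw [map_sum]
    exact Finset.sum_congr rfl fun v _ => by rw [Polynomial.expand_monomial]
  have e2 : expand F q h = ∑ u ∈ range n, monomial (u * q) (h.coeff u) := by
    conv_lhs => rw [eh]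
    rw [map_sum]
    exact Finset.sum_congr rfl fun v _ => by rw [Polynomial.expand_monomial]
  have e3 : h * expand F q x = ∑ v ∈ range n, ∑ u ∈ range n,
      monomial (u + v * q) (h.coeff u * x.coeff v) := by
    rw [e1]
    conv_lhs => rw [eh]
    rw [Finset.sum_mul_sum, Finset.sum_comm]
    exact Finset.sum_congr rfl fun v _ => Finset.sum_congr rfl fun u _ => by
      rw [monomial_mul_monomial]
  have e4 : expand F q h * x = ∑ v ∈ range n, ∑ u ∈ range n,
      monomial (u * q + v) (h.coeff u * x.coeff v) := by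
    rw [e2]
    conv_lhs => rw [ex']
    rw [Finset.sum_mul_sum, Finset.sum_comm]
    exact Finset.sum_congr rfl fun v _ => Finset.sum_congr rfl fun u _ => by
      rw [monomial_mul_monomial]
  rw [map_add, e3, e4, map_sum, map_sum, ← Finset.sum_add_distrib]
  apply Finset.sum_congr rfl
  intro v _
  rw [map_sum, map_sum, ← Finset.sum_add_distrib, phi_eq q a v h hh, Finset.mul_sum]
  apply Finset.sum_congr rfl
  intro u _
  rw [ct_lam_monomial, ct_lam_monomial, be, mul_comm v q, mul_comm u q]
  ring

/-- zeros of a functional -/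
theorem ct_count [Fintype F] {V : Type} [AddCommGroup V] [Module F V] [Fintype V]
    (g : V →ₗ[F] F) [DecidableEq F] [Decidable (g = 0)] :
    (Fintype.card F : ℝ) * ∑ x : V, (if g x = 0 then (1 : ℝ) else 0) =
      Fintype.card V + ((Fintype.card F : ℝ) - 1) * (if g = 0 then (Fintype.card V : ℝ) else 0) := by
  by_cases hg : g = 0
  · subst hg
    simp
    ring
  · rw [if_neg hg, mul_zero, add_zero]
    have hs : Function.Surjective g := LinearMap.surjective hg
    have h1 : ∀ c : F, (Finset.univ.filter fun x : V => g x = c).card =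
        (Finset.univ.filter fun x : V => g x = 0).card := by
      intro c
      exact AddMonoidHom.card_fiber_eq_of_mem_range g.toAddMonoidHom (hs c) (hs 0)
    have h2 : (Finset.univ : Finset V).card =
        ∑ c ∈ (Finset.univ : Finset F), (Finset.univ.filter fun x : V => g x = c).card :=
      Finset.card_eq_sum_card_fiberwise (fun _ _ => by simp)
    rw [Finset.sum_congr rfl (fun c _ => h1 c), Finset.sum_const, Finset.card_univ,
      Finset.card_univ, smul_eq_mul] at h2
    rw [Finset.sum_ite, Finset.sum_const_zero, add_zero, Finset.sum_const, nsmul_eq_mul, mul_one,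
      h2]
    push_cast
    ring

theorem ct_mem {n : ℕ} (hn : 1 ≤ n) (f : F[X]) : f ∈ degreeLT F n ↔ f.natDegree < n := by
  rw [Polynomial.mem_degreeLT]
  by_cases hf : f = 0
  · subst hf
    simp
    omega
  · exact (Polynomial.natDegree_lt_iff_degree_lt hf).symm

/-- the polarised form -/
noncomputable def ct_ff (l q n : ℕ) (h x : Fin l → degreeLT F n) : F[X] :=
  ∑ i, ((h i : F[X]) * (x i : F[X]) ^ q + (h i : F[X]) ^ q * (x i : F[X]))

theorem ct_ff_deg (l q n : ℕ) (hn : 1 ≤ n) (h x : Fin l → degreeLT F n) :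
    (ct_ff l q n h x).natDegree < (q + 1) * n := by
  have h1 : ∀ f : degreeLT F n, (f : F[X]).natDegree ≤ n - 1 := by
    intro f
    have := (ct_mem hn (f : F[X])).1 f.2
    omega
  have h2 : (ct_ff l q n h x).natDegree ≤ (q + 1) * (n - 1) := by
    unfold ct_ff
    apply Polynomial.natDegree_sum_le_of_forall_le
    intro i _
    refine (Polynomial.natDegree_add_le _ _).trans (max_le ?_ ?_)
    · refine (Polynomial.natDegree_mul_le).trans ?_
      have h3 : ((x i : F[X]) ^ q).natDegree ≤ q * (n - 1) :=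
        (Polynomial.natDegree_pow_le).trans (Nat.mul_le_mul_left _ (h1 _))
      have h4 := h1 (h i)
      calc _ ≤ (n - 1) + q * (n - 1) := Nat.add_le_add h4 h3
        _ = (q + 1) * (n - 1) := by ring
    · refine (Polynomial.natDegree_mul_le).trans ?_
      have h3 : ((h i : F[X]) ^ q).natDegree ≤ q * (n - 1) :=
        (Polynomial.natDegree_pow_le).trans (Nat.mul_le_mul_left _ (h1 _))
      have h4 := h1 (x i)
      calc _ ≤ q * (n - 1) + (n - 1) := Nat.add_le_add h3 h4
        _ = (q + 1) * (n - 1) := by ring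
  refine lt_of_le_of_lt h2 ?_
  apply Nat.mul_lt_mul_of_pos_left
  · omega
  · omega

/-- the linear form in the second variable -/
noncomputable def ct_g (l q n : ℕ) (a : ℕ → F) (h : Fin l → degreeLT F n) :
    (Fin l → degreeLT F n) →ₗ[F] F :=
  ∑ i : Fin l, ∑ v ∈ range n, phi q a v (h i : F[X]) •
    ((Polynomial.lcoeff F v) ∘ₗ (degreeLT F n).subtype ∘ₗ
      (LinearMap.proj i : (Fin l → degreeLT F n) →ₗ[F] degreeLT F n))

theorem ct_g_apply (l q n : ℕ) (a : ℕ → F) (h x : Fin l → degreeLT F n) :
    ct_g l q n a h x = ∑ i : Fin l, ∑ v ∈ range n,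
      phi q a v (h i : F[X]) * (x i : F[X]).coeff v := by
  simp [ct_g, LinearMap.sum_apply]

theorem ct_g_eq (l q n : ℕ) (hn : 1 ≤ n) (hq : ∀ f : F[X], f ^ q = expand F q f) (a : ℕ → F)
    (h x : Fin l → degreeLT F n) :
    ct_lam a (ct_ff l q n h x) = ct_g l q n a h x := by
  rw [ct_g_apply, ct_ff, map_sum]
  apply Finset.sum_congr rfl
  intro i _
  rw [hq, hq, ct_lam_mul q n a _ _ ((ct_mem hn _).1 (h i).2) ((ct_mem hn _).1 (x i).2)]
  exact Finset.sum_congr rfl fun v _ => mul_comm _ _

theorem ct_g_zero (l q n : ℕ) (hn : 1 ≤ n) (a : ℕ → F) (h : Fin l → degreeLT F n) :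
    ct_g l q n a h = 0 ↔ ∀ i, (h i : F[X]) ∈ Rad q a n := by
  constructor
  · intro hg i
    refine ⟨(ct_mem hn _).1 (h i).2, ?_⟩
    intro j hj
    have hX : (X : F[X]) ^ j ∈ degreeLT F n := by
      rw [ct_mem hn, Polynomial.natDegree_X_pow]
      exact hj
    have h1 : ct_g l q n a h (Pi.single i ⟨X ^ j, hX⟩) = 0 := by rw [hg]; rfl
    rw [ct_g_apply, Finset.sum_eq_single i, Finset.sum_eq_single j] at h1
    · simpa using h1
    · intro v _ hv
      have h2 : ((Pi.single i (⟨X ^ j, hX⟩ : degreeLT F n) : Fin l → degreeLT F n) i : F[X]) =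
          X ^ j := by rw [Pi.single_eq_same]
      rw [h2, Polynomial.coeff_X_pow, if_neg hv, mul_zero]
    · intro hj'
      exact absurd (Finset.mem_range.2 hj) hj'
    · intro i' _ hi'
      apply Finset.sum_eq_zero
      intro v _
      have h2 : ((Pi.single i (⟨X ^ j, hX⟩ : degreeLT F n) : Fin l → degreeLT F n) i' : F[X]) =
          0 := by rw [Pi.single_eq_of_ne hi']; rfl
      rw [h2, Polynomial.coeff_zero, mul_zero]
    · intro hi'
      exact absurd (Finset.mem_univ i) hi'
  · intro hR
    refine LinearMap.ext fun x => ?_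
    rw [ct_g_apply, LinearMap.zero_apply]
    apply Finset.sum_eq_zero
    intro i _
    apply Finset.sum_eq_zero
    intro v hv
    rw [(hR i).2 v (Finset.mem_range.1 hv), zero_mul]

theorem ct_main [Fintype F] (l q n T : ℕ) (hn : 1 ≤ n) (hq : ∀ f : F[X], f ^ q = expand F q f)
    (hT : T = (q + 1) * n) :
    (Nat.card (Zs F l q n) : ℝ) * (Fintype.card F : ℝ) ^ T ≤
      (Fintype.card F : ℝ) ^ (l * n) *
        ∑ α : Fin T → F, (Nat.card (Rad q (ex T α) n) : ℝ) ^ l := by
  classical
  let hFV : Fintype (degreeLT F n) :=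
    Fintype.ofEquiv (Fin n → F) (degreeLTEquiv F n).symm.toEquiv
  have hcV : Fintype.card (degreeLT F n) = Fintype.card F ^ n := by
    rw [Fintype.card_congr (degreeLTEquiv F n).toEquiv]
    simp
  have hcX : (Fintype.card (Fin l → degreeLT F n) : ℝ) = (Fintype.card F : ℝ) ^ (l * n) := by
    rw [Fintype.card_fun, hcV, Fintype.card_fin]
    push_cast
    rw [← pow_mul, mul_comm]
  have hcA : (Fintype.card (Fin T → F) : ℝ) = (Fintype.card F : ℝ) ^ T := by
    rw [Fintype.card_fun, Fintype.card_fin]
    push_cast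
    rfl
  have A1 : ∀ h x : Fin l → degreeLT F n, (Fintype.card F : ℝ) *
      ∑ α : Fin T → F, (if ct_lam (ex T α) (ct_ff l q n h x) = 0 then (1 : ℝ) else 0) =
      (Fintype.card F : ℝ) ^ T + ((Fintype.card F : ℝ) - 1) *
        (if ct_ff l q n h x = 0 then (Fintype.card F : ℝ) ^ T else 0) := by
    intro h x
    let g : (Fin T → F) →ₗ[F] F :=
      ∑ m : Fin T, (ct_ff l q n h x).coeff m • (LinearMap.proj m : (Fin T → F) →ₗ[F] F)
    have hg : ∀ α, g α = ct_lam (ex T α) (ct_ff l q n h x) := by
      intro α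
      rw [ct_lam_ex]
      simp [g, LinearMap.sum_apply]
    have hg0 : g = 0 ↔ ct_ff l q n h x = 0 := by
      constructor
      · intro h0
        ext m
        rw [Polynomial.coeff_zero]
        by_cases hm : m < T
        · have h1 : g (Pi.single ⟨m, hm⟩ 1) = 0 := by rw [h0]; rfl
          simp only [g, LinearMap.sum_apply, LinearMap.smul_apply, LinearMap.proj_apply,
            smul_eq_mul] at h1
          rw [Finset.sum_eq_single (⟨m, hm⟩ : Fin T)] at h1
          · simpa using h1
          · intro m' _ hm'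
            rw [Pi.single_eq_of_ne hm', mul_zero]
          · intro h2
            exact absurd (Finset.mem_univ _) h2
        · apply Polynomial.coeff_eq_zero_of_natDegree_lt
          have := ct_ff_deg l q n hn h x
          omega
      · intro h0
        ext1 α
        simp [g, h0]
    have h1 := ct_count g
    rw [hcA] at h1
    simp only [hg, hg0] at h1
    exact h1
  have A2 : ∀ (α : Fin T → F) (h : Fin l → degreeLT F n), (Fintype.card F : ℝ) *
      ∑ x : Fin l → degreeLT F n,
        (if ct_lam (ex T α) (ct_ff l q n h x) = 0 then (1 : ℝ) else 0) =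
      (Fintype.card F : ℝ) ^ (l * n) + ((Fintype.card F : ℝ) - 1) *
        (if (∀ i, (h i : F[X]) ∈ Rad q (ex T α) n) then (Fintype.card F : ℝ) ^ (l * n)
          else 0) := by
    intro α h
    have h1 := ct_count (ct_g l q n (ex T α) h)
    rw [hcX] at h1
    simp only [← ct_g_eq l q n hn hq, ct_g_zero l q n hn] at h1
    exact h1
  have hZ : (Nat.card (Zs F l q n) : ℝ) = ∑ h : Fin l → degreeLT F n,
      ∑ x : Fin l → degreeLT F n, (if ct_ff l q n h x = 0 then (1 : ℝ) else 0) := by
    have e1 : Zs F l q n ≃ {z : (Fin l → degreeLT F n) × (Fin l → degreeLT F n) //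
        ct_ff l q n z.1 z.2 = 0} :=
      { toFun := fun z => ⟨(fun i => ⟨z.1.1 i, (ct_mem hn _).2 (z.2.1 i).1⟩,
          fun i => ⟨z.1.2 i, (ct_mem hn _).2 (z.2.1 i).2⟩), z.2.2⟩
        invFun := fun z => ⟨(fun i => (z.1.1 i : F[X]), fun i => (z.1.2 i : F[X])),
          ⟨fun i => ⟨(ct_mem hn _).1 (z.1.1 i).2, (ct_mem hn _).1 (z.1.2 i).2⟩, z.2⟩⟩
        left_inv := fun z => rfl
        right_inv := fun z => rfl }
    rw [Nat.card_congr e1, Nat.card_eq_fintype_card, Fintype.card_subtype,
      ← Fintype.sum_prod_type' (fun h x : Fin l → degreeLT F n =>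
        (if ct_ff l q n h x = 0 then (1 : ℝ) else 0)), Finset.sum_boole]
  have hR : ∀ α : Fin T → F, (Nat.card (Rad q (ex T α) n) : ℝ) ^ l =
      ∑ h : Fin l → degreeLT F n,
        (if (∀ i, (h i : F[X]) ∈ Rad q (ex T α) n) then (1 : ℝ) else 0) := by
    intro α
    have e1 : {h : Fin l → degreeLT F n // ∀ i, (h i : F[X]) ∈ Rad q (ex T α) n} ≃
        (Fin l → Rad q (ex T α) n) :=
      { toFun := fun z i => ⟨(z.1 i : F[X]), z.2 i⟩
        invFun := fun z => ⟨fun i => ⟨(z i : F[X]), (ct_mem hn _).2 (z i).2.1⟩,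
          fun i => (z i).2⟩
        left_inv := fun z => rfl
        right_inv := fun z => rfl }
    have hl : Nat.card (Fin l) = l := by simp
    rw [Finset.sum_boole, ← Fintype.card_subtype, ← Nat.card_eq_fintype_card, Nat.card_congr e1,
      Nat.card_fun, hl]
    push_cast
    rfl
  have hQ1 : (1 : ℝ) < Fintype.card F := by exact_mod_cast Fintype.one_lt_card
  have B1 : (Fintype.card F : ℝ) * ∑ α : Fin T → F, ∑ h : Fin l → degreeLT F n,
      ∑ x : Fin l → degreeLT F n,
        (if ct_lam (ex T α) (ct_ff l q n h x) = 0 then (1 : ℝ) else 0) =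
      (Fintype.card F : ℝ) ^ T * (Fintype.card F : ℝ) ^ (l * n) *
        (Fintype.card F : ℝ) ^ (l * n) + ((Fintype.card F : ℝ) - 1) *
        ((Fintype.card F : ℝ) ^ (l * n) *
          ∑ α : Fin T → F, (Nat.card (Rad q (ex T α) n) : ℝ) ^ l) := by
    have k1 : ∀ α : Fin T → F, (Fintype.card F : ℝ) * ∑ h : Fin l → degreeLT F n,
        ∑ x : Fin l → degreeLT F n,
          (if ct_lam (ex T α) (ct_ff l q n h x) = 0 then (1 : ℝ) else 0) =
        ∑ h : Fin l → degreeLT F n, ((Fintype.card F : ℝ) ^ (l * n) +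
          ((Fintype.card F : ℝ) - 1) *
          (if (∀ i, (h i : F[X]) ∈ Rad q (ex T α) n) then (Fintype.card F : ℝ) ^ (l * n)
            else 0)) := by
      intro α
      rw [Finset.mul_sum]
      exact Finset.sum_congr rfl (fun h _ => A2 α h)
    rw [Finset.mul_sum, Finset.sum_congr rfl (fun α _ => k1 α),
      Finset.sum_congr rfl (fun α _ => hR α)]
    rw [Finset.sum_congr rfl (fun α _ => Finset.sum_add_distrib)]
    rw [Finset.sum_add_distrib]
    congr 1
    · rw [Finset.sum_const, Finset.sum_const, Finset.card_univ, Finset.card_univ, nsmul_eq_mul,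
        nsmul_eq_mul, hcA, hcX]
      ring
    · rw [Finset.mul_sum, Finset.mul_sum]
      apply Finset.sum_congr rfl
      intro α _
      rw [Finset.mul_sum, Finset.mul_sum]
      apply Finset.sum_congr rfl
      intro h _
      split_ifs <;> simp
  have B2 : (Fintype.card F : ℝ) * ∑ α : Fin T → F, ∑ h : Fin l → degreeLT F n,
      ∑ x : Fin l → degreeLT F n,
        (if ct_lam (ex T α) (ct_ff l q n h x) = 0 then (1 : ℝ) else 0) =
      (Fintype.card F : ℝ) ^ T * (Fintype.card F : ℝ) ^ (l * n) *
        (Fintype.card F : ℝ) ^ (l * n) + ((Fintype.card F : ℝ) - 1) *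
        ((Nat.card (Zs F l q n) : ℝ) * (Fintype.card F : ℝ) ^ T) := by
    have k2 : ∀ h : Fin l → degreeLT F n, (Fintype.card F : ℝ) * ∑ α : Fin T → F,
        ∑ x : Fin l → degreeLT F n,
          (if ct_lam (ex T α) (ct_ff l q n h x) = 0 then (1 : ℝ) else 0) =
        ∑ x : Fin l → degreeLT F n, ((Fintype.card F : ℝ) ^ T +
          ((Fintype.card F : ℝ) - 1) *
          (if ct_ff l q n h x = 0 then (Fintype.card F : ℝ) ^ T else 0)) := by
      intro h
      rw [Finset.sum_comm, Finset.mul_sum]
      exact Finset.sum_congr rfl (fun x _ => A1 h x)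
    rw [Finset.sum_comm, Finset.mul_sum, Finset.sum_congr rfl (fun h _ => k2 h), hZ]
    rw [Finset.sum_congr rfl (fun h _ => Finset.sum_add_distrib)]
    rw [Finset.sum_add_distrib]
    congr 1
    · rw [Finset.sum_const, Finset.sum_const, Finset.card_univ, nsmul_eq_mul,
        nsmul_eq_mul, hcX]
      ring
    · rw [Finset.sum_mul, Finset.mul_sum]
      apply Finset.sum_congr rfl
      intro h _
      rw [← Finset.mul_sum, Finset.sum_mul]
      congr 1
      apply Finset.sum_congr rfl
      intro x _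
      split_ifs <;> simp
  have h3 := B2.symm.trans B1
  have h4 : ((Fintype.card F : ℝ) - 1) *
        ((Nat.card (Zs F l q n) : ℝ) * (Fintype.card F : ℝ) ^ T) =
      ((Fintype.card F : ℝ) - 1) * ((Fintype.card F : ℝ) ^ (l * n) *
          ∑ α : Fin T → F, (Nat.card (Rad q (ex T α) n) : ℝ) ^ l) := by
    linarith
  exact (mul_left_cancel₀ (by linarith) h4).le

/-- M5a: counting identity (only `≤` is needed) -/
theorem Zs_le [Fintype F] (l e n : ℕ) (he : 1 ≤ e) (hn : 1 ≤ n) :
    (Nat.card (Zs F l ((Fintype.card F) ^ e) n) : ℝ) *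
        (Fintype.card F : ℝ) ^ (((Fintype.card F) ^ e + 1) * n) ≤
      (Fintype.card F : ℝ) ^ (l * n) *
        ∑ α : Fin (((Fintype.card F) ^ e + 1) * n) → F,
          (Nat.card (Rad ((Fintype.card F) ^ e) (ex _ α) n) : ℝ) ^ l :=
  ct_main l ((Fintype.card F) ^ e) n _ hn (fun f => ct_expand e f) rfl

end FR11
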