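import Mathlib

open Polynomial Finset

namespace FR11

variable {F : Type} [Field F]

/-- entries of the symmetric matrix attached to the sequence `a` -/
def be (q : ℕ) (a : ℕ → F) (i j : ℕ) : F := a (i + q * j) + a (q * i + j)

theorem be_symm (q : ℕ) (a : ℕ → F) (i j : ℕ) : be q a i j = be q a j i := by
  unfold be
  rw [add_comm (a (i + q * j)), add_comm (q * i) j, add_comm i (q * j)]

/-- the `j`-th row as a functional on polynomials -/
noncomputable def phi (q : ℕ) (a : ℕ → F) (j : ℕ) : F[X] →ₗ[F] F :=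
  Polynomial.lsum (fun i => LinearMap.toSpanSingleton F F (be q a i j))

theorem phi_eq (q : ℕ) (a : ℕ → F) (j : ℕ) (h : F[X]) {n : ℕ} (hn : h.natDegree < n) :
    phi q a j h = ∑ i ∈ range n, h.coeff i * be q a i j := by
  rw [phi, Polynomial.lsum_apply, Polynomial.sum_over_range' _ _ n hn]
  · simp [LinearMap.toSpanSingleton_apply]
  · intro i
    simp

/-- polynomials killed by the rows before the `j`-th -/
noncomputable def KK (q : ℕ) (a : ℕ → F) (j : ℕ) : Submodule F F[X] where
  carrier := {h | ∀ i < j, phi q a i h = 0}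
  zero_mem' := by
    intro i _
    simp
  add_mem' := by
    intro x y hx hy i hi
    rw [map_add, hx i hi, hy i hi, add_zero]
  smul_mem' := by
    intro c x hx i hi
    rw [map_smul, hx i hi, smul_zero]

theorem mem_KK {q : ℕ} {a : ℕ → F} {j : ℕ} {h : F[X]} :
    h ∈ KK q a j ↔ ∀ i < j, phi q a i h = 0 := Iff.rfl

open Classical in
/-- the degrees below `j` of nonzero elements of `KK q a j` -/
noncomputable def SS (q : ℕ) (a : ℕ → F) (j : ℕ) : Finset ℕ :=
  (range j).filter (fun d => ∃ h ∈ KK q a j, h ≠ 0 ∧ h.natDegree = d)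

theorem mem_SS {q : ℕ} {a : ℕ → F} {j d : ℕ} :
    d ∈ SS q a j ↔ d < j ∧ ∃ h ∈ KK q a j, h ≠ 0 ∧ h.natDegree = d := by
  classical
  simp [SS]

/-- a finite sequence as a sequence -/
def ex (T : ℕ) (α : Fin T → F) : ℕ → F := fun m => if h : m < T then α ⟨m, h⟩ else 0

/-- the radical of the form on polynomials of degree below `n` -/
def Rad (q : ℕ) (a : ℕ → F) (n : ℕ) : Set F[X] := {h | h.natDegree < n ∧ ∀ j < n, phi q a j h = 0}

/-- the zeros of the polarised equation -/
def Zs (F : Type) [Field F] (l q n : ℕ) : Set ((Fin l → F[X]) × (Fin l → F[X])) :=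
  {z | (∀ i, (z.1 i).natDegree < n ∧ (z.2 i).natDegree < n) ∧
    ∑ i, (z.1 i * z.2 i ^ q + z.1 i ^ q * z.2 i) = 0}

/-- the number of residue classes mod `q` met by `S` -/
def cl (q : ℕ) (S : Finset ℕ) : ℕ := (S.image (fun d => d % q)).card

/-- the potential -/
noncomputable def Wt (x : ℝ) (q : ℕ) (S : Finset ℕ) (j : ℕ) : ℝ :=
  x ^ (∑ d ∈ S, min (j - d) q) * (2 / x) ^ (cl q S)

end FR11
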