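import Pool.Agent.helper48.HF.E4

open Polynomial

namespace FR11

variable {F : Type} [Field F]

open HF48 in
/-- M6: from a bound for pairs to the number of values -/
theorem rep_of_pairs [Fintype F] (l k : ℕ) (hk : 0 < k) (C : ℝ) (hC0 : 0 < C)
    (hC : ∀ N, (Nat.card (HF48.Pairs F l k N) : ℝ) ≤ C * (Fintype.card F : ℝ) ^ (l * N)) :
    ∃ c : ℝ, 0 < c ∧ ∀ D : ℕ, c * (Fintype.card F : ℝ) ^ ((l : ℝ) * D / k) ≤
      Nat.card {f : F[X] // f.natDegree ≤ D ∧
          ∃ x : Fin l → F[X], (∀ i, k * (x i).natDegree ≤ D) ∧ f = ∑ i, x i ^ k} := by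
  classical
  have hQ1 : (1 : ℝ) ≤ Fintype.card F := by exact_mod_cast Fintype.card_pos
  have hQ0 : (0 : ℝ) < Fintype.card F := by linarith
  have main : ∀ D : ℕ, 1 / C * (Fintype.card F : ℝ) ^ ((l : ℝ) * D / k) ≤
      Nat.card (Rep F l k D) := by
    intro D
    set N : ℕ := D / k with hN
    have hDN : D < k * (N + 1) := by
      rw [hN]
      exact (Nat.lt_mul_div_succ D hk)
    have hkN : k * N ≤ D := Nat.mul_div_le D k
    have h1 := values_ge (F := F) l k N
    set I := ((finite_L (F := F) l (N + 1)).toFinset.image (fun x => ∑ i, x i ^ k)) with hI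
    have h2 : I.card ≤ Nat.card (Rep F l k D) := by
      have h3 : (I : Set F[X]) ⊆ Rep F l k D := by
        intro f hf
        rw [hI, Finset.mem_coe, Finset.mem_image] at hf
        obtain ⟨x, hx, rfl⟩ := hf
        rw [Set.Finite.mem_toFinset] at hx
        have hx' : ∀ i, (x i).natDegree ≤ N := mem_L_iff.mp hx
        have hx2 : ∀ i, k * (x i).natDegree ≤ D := fun i =>
          (Nat.mul_le_mul_left k (hx' i)).trans hkN
        refine ⟨?_, x, hx2, rfl⟩
        apply Polynomial.natDegree_sum_le_of_forall_le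
        intro i _
        exact (Polynomial.natDegree_pow_le).trans (hx2 i)
      have h4 := Set.ncard_le_ncard h3 (finite_Rep l k D)
      rw [Set.ncard_coe_finset] at h4
      exact h4
    have h3 : ((Fintype.card F : ℝ) ^ (l * (N + 1))) ^ 2 ≤
        (Nat.card (Rep F l k D) : ℝ) * (C * (Fintype.card F : ℝ) ^ (l * N)) := by
      calc ((Fintype.card F : ℝ) ^ (l * (N + 1))) ^ 2
          ≤ (I.card : ℝ) * (Nat.card (Pairs F l k N) : ℝ) := by exact_mod_cast h1
        _ ≤ (Nat.card (Rep F l k D) : ℝ) * (C * (Fintype.card F : ℝ) ^ (l * N)) := by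
            apply mul_le_mul _ (hC N) (by positivity) (by positivity)
            exact_mod_cast h2
    have h4 : (Fintype.card F : ℝ) ^ ((l : ℝ) * D / (k : ℝ)) ≤
        (Fintype.card F : ℝ) ^ (l * (N + 1)) := by
      rw [← Real.rpow_natCast]
      apply Real.rpow_le_rpow_of_exponent_le hQ1
      rw [div_le_iff₀ (by exact_mod_cast hk)]
      push_cast
      have h5 : (D : ℝ) ≤ k * (N + 1) := by exact_mod_cast hDN.le
      have h6 : (0 : ℝ) ≤ l := Nat.cast_nonneg l
      nlinarith
    have h5 : (Fintype.card F : ℝ) ^ (l * N) ≤ (Fintype.card F : ℝ) ^ (l * (N + 1)) :=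
      pow_le_pow_right₀ hQ1 (Nat.mul_le_mul_left l (by omega))
    have h6 : (Fintype.card F : ℝ) ^ (l * (N + 1)) ≤ (Nat.card (Rep F l k D) : ℝ) * C := by
      have h7 : 0 < (Fintype.card F : ℝ) ^ (l * (N + 1)) := by positivity
      have h8 : ((Fintype.card F : ℝ) ^ (l * (N + 1))) * ((Fintype.card F : ℝ) ^ (l * (N + 1))) ≤
          ((Nat.card (Rep F l k D) : ℝ) * C) * ((Fintype.card F : ℝ) ^ (l * (N + 1))) := by
        calc ((Fintype.card F : ℝ) ^ (l * (N + 1))) * ((Fintype.card F : ℝ) ^ (l * (N + 1)))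
            = ((Fintype.card F : ℝ) ^ (l * (N + 1))) ^ 2 := by ring
          _ ≤ (Nat.card (Rep F l k D) : ℝ) * (C * (Fintype.card F : ℝ) ^ (l * N)) := h3
          _ ≤ (Nat.card (Rep F l k D) : ℝ) * (C * (Fintype.card F : ℝ) ^ (l * (N + 1))) := by
              apply mul_le_mul_of_nonneg_left _ (by positivity)
              exact mul_le_mul_of_nonneg_left h5 hC0.le
          _ = _ := by ring
      exact le_of_mul_le_mul_right h8 h7
    rw [one_div, inv_mul_le_iff₀ hC0]
    linarith
  exact ⟨1 / C, by positivity, fun D => main D⟩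

end FR11
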