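import Pool.Agent.helper11.FR.Count
import Pool.Agent.helper48.HF.E4

open Polynomial Finset

namespace FR11

variable {F : Type} [Field F]

/-- M5b: from pairs to the polarised equation -/
theorem pairs_le_Zs [Fintype F] (l e N : ℕ) (he : 1 ≤ e) :
    Nat.card (HF48.Pairs F l ((Fintype.card F) ^ e + 1) N) ≤
      Nat.card (Zs F l ((Fintype.card F) ^ e) (N + 1)) := by
  classical
  set q : ℕ := (Fintype.card F) ^ e with hq
  have hadd : ∀ u v : F[X], (u + v) ^ q = u ^ q + v ^ q := by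
    intro u v
    rw [hq, ct_expand, ct_expand, ct_expand, map_add]
  have hsub : ∀ u v : F[X], (u - v) ^ q = u ^ q - v ^ q := by
    intro u v
    rw [hq, ct_expand, ct_expand, ct_expand, map_sub]
  have hfin : (Zs F l q (N + 1)).Finite := by
    have h1 : ((HF48.L F l (N + 1)) ×ˢ (HF48.L F l (N + 1)) :
        Set ((Fin l → F[X]) × (Fin l → F[X]))).Finite :=
      (HF48.finite_L l (N + 1)).prod (HF48.finite_L l (N + 1))
    refine h1.subset ?_
    rintro z ⟨hz, _⟩
    exact Set.mem_prod.mpr ⟨HF48.mem_L_iff.mpr (fun i => Nat.lt_succ_iff.mp (hz i).1),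
      HF48.mem_L_iff.mpr (fun i => Nat.lt_succ_iff.mp (hz i).2)⟩
  have hF : Finite (Zs F l q (N + 1)) := hfin.to_subtype
  have key : ∀ z : HF48.Pairs F l (q + 1) N,
      ∑ i, ((z.1.1 i - z.1.2 i) * z.1.2 i ^ q + (z.1.1 i - z.1.2 i) ^ q * z.1.2 i) =
        - ∑ i, (z.1.1 i - z.1.2 i) ^ (q + 1) := by
    rintro ⟨⟨x, y⟩, hx, hy, hxy⟩
    have h1 : ∑ i, ((x i - y i) * y i ^ q + (x i - y i) ^ q * y i) +
        ∑ i, (x i - y i) ^ (q + 1) = ∑ i, (x i ^ (q + 1) - y i ^ (q + 1)) := by
      rw [← sum_add_distrib]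
      refine sum_congr rfl (fun i _ => ?_)
      rw [pow_succ (x i - y i), hsub, pow_succ, pow_succ]
      ring
    have h2 : ∑ i, (x i ^ (q + 1) - y i ^ (q + 1)) = 0 := by
      rw [sum_sub_distrib]
      exact sub_eq_zero.mpr hxy
    rw [h2] at h1
    exact eq_neg_of_add_eq_zero_left h1
  let base : (Fin l → F[X]) → (Fin l → F[X]) := fun h =>
    if H : ∃ z : HF48.Pairs F l (q + 1) N, z.1.1 - z.1.2 = h then (Classical.choose H).1.2 else 0
  have hbase : ∀ z : HF48.Pairs F l (q + 1) N, ∃ w : HF48.Pairs F l (q + 1) N,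
      w.1.1 - w.1.2 = z.1.1 - z.1.2 ∧ base (z.1.1 - z.1.2) = w.1.2 := by
    intro z
    have H : ∃ w : HF48.Pairs F l (q + 1) N, w.1.1 - w.1.2 = z.1.1 - z.1.2 := ⟨z, rfl⟩
    refine ⟨Classical.choose H, Classical.choose_spec H, ?_⟩
    simp only [base]
    rw [dif_pos H]
  apply Nat.card_le_card_of_injective (β := Zs F l q (N + 1))
    (fun z : HF48.Pairs F l (q + 1) N =>
      (⟨(z.1.1 - z.1.2, z.1.2 - base (z.1.1 - z.1.2)), by
        obtain ⟨w, hw1, hw2⟩ := hbase z
        refine ⟨fun i => ⟨?_, ?_⟩, ?_⟩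
        · have h1 := z.2.1 i
          have h2 := z.2.2.1 i
          have h3 := natDegree_sub_le (z.1.1 i) (z.1.2 i)
          have h4 : ((z.1.1 - z.1.2) i).natDegree = (z.1.1 i - z.1.2 i).natDegree := rfl
          show ((z.1.1 - z.1.2) i).natDegree < N + 1
          rw [h4]
          have := max_le h1 h2
          omega
        · have h1 := z.2.2.1 i
          have h2 := w.2.2.1 i
          have h3 := natDegree_sub_le (z.1.2 i) (w.1.2 i)
          show ((z.1.2 - base (z.1.1 - z.1.2)) i).natDegree < N + 1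
          rw [hw2]
          have h4 : ((z.1.2 - w.1.2) i).natDegree = (z.1.2 i - w.1.2 i).natDegree := rfl
          rw [h4]
          have := max_le h1 h2
          omega
        · show ∑ i, ((z.1.1 - z.1.2) i * (z.1.2 - base (z.1.1 - z.1.2)) i ^ q +
            (z.1.1 - z.1.2) i ^ q * (z.1.2 - base (z.1.1 - z.1.2)) i) = 0
          rw [hw2]
          have k1 := key z
          have k2 := key w
          have h5 : ∀ i, w.1.1 i - w.1.2 i = z.1.1 i - z.1.2 i := fun i => congrFun hw1 i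
          simp only [h5] at k2
          rw [← k2] at k1
          have h6 : ∑ i, ((z.1.1 - z.1.2) i * (z.1.2 - w.1.2) i ^ q +
              (z.1.1 - z.1.2) i ^ q * (z.1.2 - w.1.2) i) =
              ∑ i, ((z.1.1 i - z.1.2 i) * z.1.2 i ^ q + (z.1.1 i - z.1.2 i) ^ q * z.1.2 i) -
              ∑ i, ((z.1.1 i - z.1.2 i) * w.1.2 i ^ q + (z.1.1 i - z.1.2 i) ^ q * w.1.2 i) := by
            rw [← sum_sub_distrib]
            refine sum_congr rfl (fun i _ => ?_)
            simp only [Pi.sub_apply]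
            rw [hsub (z.1.2 i) (w.1.2 i)]
            ring
          rw [h6, k1, sub_self]⟩ : Zs F l q (N + 1)))
  intro z z' h
  have h1 := Subtype.ext_iff.mp h
  have h2 : z.1.1 - z.1.2 = z'.1.1 - z'.1.2 := congrArg Prod.fst h1
  have h3 : z.1.2 - base (z.1.1 - z.1.2) = z'.1.2 - base (z'.1.1 - z'.1.2) := congrArg Prod.snd h1
  rw [h2] at h3
  have h4 : z.1.2 = z'.1.2 := sub_left_injective h3
  have h5 : z.1.1 = z'.1.1 := by
    rw [h4] at h2
    exact sub_left_injective h2
  exact Subtype.ext (Prod.ext h5 h4)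

end FR11
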