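import Pool.Agent.helper11.FR.Asm
import Pool.Agent.helper11.FR.Card
import Pool.Agent.helper11.FR.Count
import Pool.Agent.helper11.FR.PairsLe
import Pool.Agent.helper11.FR.Fin

open Polynomial Finset

namespace FR11

variable {F : Type} [Field F]

/-- the bound for the polarised equation -/
theorem Zs_bound [Fintype F] (l e n : ℕ) (he : 1 ≤ e) (hn : 1 ≤ n) (hQ : 8 ≤ Fintype.card F)
    (hl : 4 ^ ((Fintype.card F) ^ e) * (Fintype.card F) ^ l ≤
      (Fintype.card F) ^ ((Fintype.card F) ^ e)) :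
    (Nat.card (Zs F l ((Fintype.card F) ^ e) n) : ℝ) ≤
      (((Fintype.card F : ℝ) / 4) ^ ((Fintype.card F) ^ e * (Fintype.card F) ^ e) *
        (((Fintype.card F : ℝ) / 4) / 2) ^ ((Fintype.card F) ^ e) *
        (1 + 4 * Fintype.card F)) * (Fintype.card F : ℝ) ^ (l * n) := by
  classical
  set q : ℕ := (Fintype.card F) ^ e with hqd
  have hq : 2 ≤ q := by
    have h1 : (Fintype.card F) ^ 1 ≤ (Fintype.card F) ^ e :=
      Nat.pow_le_pow_right (by omega) he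
    rw [pow_one] at h1
    rw [hqd]
    omega
  set Q : ℝ := (Fintype.card F : ℝ) with hQd
  have hQ8 : (8 : ℝ) ≤ Q := by
    rw [hQd]
    exact_mod_cast hQ
  have hQ0 : (0 : ℝ) < Q := by linarith
  set A : ℝ := (Q / 4) ^ (q * q) * ((Q / 4) / 2) ^ q * (1 + 4 * Q) with hA
  have hlR : Q ^ l ≤ (Q / 4) ^ q := by
    have h1 : (4 : ℝ) ^ q * Q ^ l ≤ Q ^ q := by
      rw [hQd]
      exact_mod_cast hl
    rw [div_pow, le_div_iff₀ (by positivity)]
    linarith
  have hpt : ∀ α : Fin ((q + 1) * n) → F,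
      (Nat.card (Rad q (ex _ α) n) : ℝ) ^ l ≤ (Q / 4) ^ (q * (SS q (ex _ α) n).card) := by
    intro α
    have h1 : (Nat.card (Rad q (ex _ α) n) : ℝ) ≤ Q ^ (SS q (ex _ α) n).card := by
      have h2 := card_Rad_le q (ex _ α) n
      rw [hQd]
      exact_mod_cast h2
    calc (Nat.card (Rad q (ex _ α) n) : ℝ) ^ l
        ≤ (Q ^ (SS q (ex _ α) n).card) ^ l := pow_le_pow_left₀ (Nat.cast_nonneg _) h1 l
      _ = (Q ^ l) ^ (SS q (ex _ α) n).card := by
          rw [← pow_mul, ← pow_mul, mul_comm]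
      _ ≤ ((Q / 4) ^ q) ^ (SS q (ex _ α) n).card := pow_le_pow_left₀ (by positivity) hlR _
      _ = (Q / 4) ^ (q * (SS q (ex _ α) n).card) := (pow_mul _ _ _).symm
  have h1 := Zs_le (F := F) l e n he hn
  rw [← hqd, ← hQd] at h1
  have h2 : ∑ α : Fin ((q + 1) * n) → F, (Nat.card (Rad q (ex _ α) n) : ℝ) ^ l ≤
      A * Q ^ ((q + 1) * n) :=
    (sum_le_sum (fun α _ => hpt α)).trans (main_est q n hq hQ)
  have hT : 0 < Q ^ ((q + 1) * n) := by positivity
  have h3 : (Nat.card (Zs F l q n) : ℝ) * Q ^ ((q + 1) * n) ≤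
      (A * Q ^ (l * n)) * Q ^ ((q + 1) * n) := by
    refine h1.trans ?_
    have h4 := mul_le_mul_of_nonneg_left h2 (by positivity : 0 ≤ Q ^ (l * n))
    refine h4.trans (le_of_eq ?_)
    ring
  exact le_of_mul_le_mul_right h3 hT

theorem pairs_bound [Fintype F] (l e : ℕ) (he : 1 ≤ e) (hQ : 8 ≤ Fintype.card F)
    (hl : 4 ^ ((Fintype.card F) ^ e) * (Fintype.card F) ^ l ≤
      (Fintype.card F) ^ ((Fintype.card F) ^ e)) :
    ∃ C : ℝ, 0 < C ∧ ∀ N, (Nat.card (HF48.Pairs F l ((Fintype.card F) ^ e + 1) N) : ℝ) ≤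
      C * (Fintype.card F : ℝ) ^ (l * N) := by
  have hQ0 : (0 : ℝ) < (Fintype.card F : ℝ) := by
    exact_mod_cast (by omega : 0 < Fintype.card F)
  refine ⟨(((Fintype.card F : ℝ) / 4) ^ ((Fintype.card F) ^ e * (Fintype.card F) ^ e) *
        (((Fintype.card F : ℝ) / 4) / 2) ^ ((Fintype.card F) ^ e) *
        (1 + 4 * Fintype.card F)) * (Fintype.card F : ℝ) ^ l, by positivity, ?_⟩
  intro N
  have h1 : (Nat.card (HF48.Pairs F l ((Fintype.card F) ^ e + 1) N) : ℝ) ≤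
      (Nat.card (Zs F l ((Fintype.card F) ^ e) (N + 1)) : ℝ) := by
    exact_mod_cast pairs_le_Zs l e N he
  refine h1.trans ((Zs_bound l e (N + 1) he (by omega) hQ hl).trans (le_of_eq ?_))
  rw [Nat.mul_succ l N, pow_add]
  ring

/-- a positive proportion of the order `Q ^ (l D / (q + 1))` of polynomials are sums of `l`
`(q + 1)`-th powers, `q = Q ^ e`, as soon as `4 ^ q * Q ^ l ≤ Q ^ q` -/
theorem near_full [Fintype F] (l e : ℕ) (he : 1 ≤ e) (hQ : 8 ≤ Fintype.card F)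
    (hl : 4 ^ ((Fintype.card F) ^ e) * (Fintype.card F) ^ l ≤
      (Fintype.card F) ^ ((Fintype.card F) ^ e)) :
    ∃ c : ℝ, 0 < c ∧ ∀ D : ℕ,
      c * (Fintype.card F : ℝ) ^ ((l : ℝ) * D / (((Fintype.card F) ^ e + 1 : ℕ) : ℝ)) ≤
      Nat.card {f : F[X] // f.natDegree ≤ D ∧
          ∃ x : Fin l → F[X], (∀ i, ((Fintype.card F) ^ e + 1) * (x i).natDegree ≤ D) ∧
            f = ∑ i, x i ^ ((Fintype.card F) ^ e + 1)} := by
  obtain ⟨C, hC0, hC⟩ := pairs_bound (F := F) l e he hQ hl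
  exact rep_of_pairs l _ (Nat.succ_pos _) C hC0 hC

end FR11
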