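import Pool.Agent.helper11.FR.Trans

open Polynomial Finset

namespace FR11

variable {F : Type} [Field F]

/-- `d` is tested at step `j` -/
def IsT (q : ℕ) (a : ℕ → F) (j d : ℕ) : Prop :=
  d ∈ SS q a j ∧ (∀ d' < d, d' ∈ SS q a j → d' % q ≠ d % q) ∧
    (∀ h ∈ KK q a j, h.natDegree < d → phi q a j h = 0)

/-- `d` passes the test at step `j` -/
def IsP (q : ℕ) (a : ℕ → F) (j d : ℕ) : Prop :=
  IsT q a j d ∧ ∀ h ∈ KK q a j, h.natDegree ≤ d → phi q a j h = 0

theorem phi_loc {q : ℕ} {a a' : ℕ → F} {i M : ℕ} {h : F[X]} (h1 : h.natDegree + q * i < M)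
    (h2 : q * h.natDegree + i < M) (ha : ∀ m < M, a m = a' m) : phi q a i h = phi q a' i h := by
  rw [phi_eq q a i h (Nat.lt_succ_self _), phi_eq q a' i h (Nat.lt_succ_self _)]
  refine sum_congr rfl (fun u hu => ?_)
  have hu' : u ≤ h.natDegree := Nat.lt_succ_iff.mp (mem_range.mp hu)
  have h3 : q * u ≤ q * h.natDegree := Nat.mul_le_mul_left q hu'
  unfold be
  rw [ha (u + q * i) (by omega), ha (q * u + i) (by omega)]

theorem arith1 {q d j i d' : ℕ} (hq : 2 ≤ q) (hd : d < j) (hi : i < j) (hd' : d' ≤ d) :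
    d' + q * i < d + q * j ∧ q * d' + i < d + q * j := by
  obtain ⟨u, rfl⟩ : ∃ u, j = d + 1 + u := ⟨j - (d + 1), by omega⟩
  have h1 : q * i ≤ q * (d + 1 + u) := Nat.mul_le_mul_left q hi.le
  have h2 : q * (i + 1) ≤ q * (d + 1 + u) := Nat.mul_le_mul_left q hi
  have h3 : q * d' ≤ q * d := Nat.mul_le_mul_left q hd'
  have h4 : 1 * u ≤ q * u := Nat.mul_le_mul_right u (by omega)
  constructor
  · nlinarith
  · nlinarith

theorem arith2 {q d j d' : ℕ} (hq : 2 ≤ q) (hd : d < j) (hd' : d' < d) :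
    d' + q * j < d + q * j ∧ q * d' + j < d + q * j := by
  refine ⟨by omega, ?_⟩
  obtain ⟨u, rfl⟩ : ∃ u, j = d + 1 + u := ⟨j - (d + 1), by omega⟩
  have h3 : q * d' ≤ q * d := Nat.mul_le_mul_left q hd'.le
  have h4 : 1 * u ≤ q * u := Nat.mul_le_mul_right u (by omega)
  nlinarith

theorem arith3 {q d j : ℕ} (hq : 2 ≤ q) (hd : d < j) : q * d + j < d + q * j := by
  obtain ⟨u, rfl⟩ : ∃ u, j = d + 1 + u := ⟨j - (d + 1), by omega⟩
  have h4 : 1 * u ≤ q * u := Nat.mul_le_mul_right u (by omega)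
  nlinarith

theorem KK_loc {q : ℕ} {a a' : ℕ → F} {j d : ℕ} (hq : 2 ≤ q) (hd : d < j)
    (ha : ∀ m < d + q * j, a m = a' m) {h : F[X]} (hh : h.natDegree ≤ d) (hK : h ∈ KK q a j) :
    h ∈ KK q a' j := by
  intro i hi
  obtain ⟨h1, h2⟩ := arith1 hq hd hi hh
  rw [← phi_loc h1 h2 ha]
  exact hK i hi

theorem SS_loc {q : ℕ} {a a' : ℕ → F} {j d d' : ℕ} (hq : 2 ≤ q) (hd : d < j)
    (ha : ∀ m < d + q * j, a m = a' m) (hd' : d' ≤ d) (hS : d' ∈ SS q a j) :
    d' ∈ SS q a' j := by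
  obtain ⟨h1, h, hh, h0, hdeg⟩ := mem_SS.mp hS
  exact mem_SS.mpr ⟨h1, h, KK_loc hq hd ha (hdeg.le.trans hd') hh, h0, hdeg⟩

theorem IsT_loc {q : ℕ} {a a' : ℕ → F} {j d : ℕ} (hq : 2 ≤ q)
    (ha : ∀ m < d + q * j, a m = a' m) (hT : IsT q a j d) : IsT q a' j d := by
  obtain ⟨h1, h2, h3⟩ := hT
  have hd : d < j := (mem_SS.mp h1).1
  have ha' : ∀ m < d + q * j, a' m = a m := fun m hm => (ha m hm).symm
  refine ⟨SS_loc hq hd ha le_rfl h1, ?_, ?_⟩
  · intro d' hd' hS
    exact h2 d' hd' (SS_loc hq hd ha' hd'.le hS)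
  · intro h hK hlt
    obtain ⟨h4, h5⟩ := arith2 hq hd hlt
    rw [phi_loc h4 h5 ha']
    exact h3 h (KK_loc hq hd ha' hlt.le hK) hlt

theorem IsP_loc {q : ℕ} {a a' : ℕ → F} {j d : ℕ} (hq : 2 ≤ q)
    (ha : ∀ m ≤ d + q * j, a m = a' m) (hP : IsP q a j d) : IsP q a' j d := by
  obtain ⟨hT, h4⟩ := hP
  have hd : d < j := (mem_SS.mp hT.1).1
  have ha1 : ∀ m < d + q * j, a m = a' m := fun m hm => ha m hm.le
  have ha1' : ∀ m < d + q * j, a' m = a m := fun m hm => (ha m hm.le).symm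
  have ha2' : ∀ m < d + q * j + 1, a' m = a m := fun m hm => (ha m (Nat.lt_succ_iff.mp hm)).symm
  refine ⟨IsT_loc hq ha1 hT, ?_⟩
  intro h hK hle
  have h5 : q * h.natDegree ≤ q * d := Nat.mul_le_mul_left q hle
  have h6 := arith3 hq hd
  rw [phi_loc (M := d + q * j + 1) (by omega) (by omega) ha2']
  exact h4 h (KK_loc hq hd ha1' hle hK) hle

theorem IsT_unique {q : ℕ} (hq : 2 ≤ q) {a : ℕ → F} {j d j' d' : ℕ} (hT : IsT q a j d) (hT' : IsT q a j' d')
    (he : d + q * j = d' + q * j') : j = j' ∧ d = d' := by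
  have key : ∀ {j d j' d' : ℕ}, IsT q a j d → IsT q a j' d' → d + q * j = d' + q * j' →
      ¬ j < j' := by
    intro j d j' d' hT hT' he hlt
    have hd : d < j := (mem_SS.mp hT.1).1
    obtain ⟨hd'j, h, hh, h0, hdeg⟩ := mem_SS.mp hT'.1
    have h2 : q * j + q ≤ q * j' := by
      have := Nat.mul_le_mul_left q hlt
      simpa [Nat.mul_succ] using this
    have hdd : d' < d := by omega
    refine hT.2.1 d' hdd (mem_SS.mpr ⟨by omega, h, KK_mono hlt.le hh, h0, hdeg⟩) ?_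
    have h3 : (d + q * j) % q = d % q := Nat.add_mul_mod_self_left d q j
    have h4 : (d' + q * j') % q = d' % q := Nat.add_mul_mod_self_left d' q j'
    rw [← h3, ← h4, he]
  have h1 := key hT hT' he
  have h2 := key hT' hT he.symm
  have hj : j = j' := by omega
  subst hj
  exact ⟨rfl, by omega⟩

/-- exactly one value of the digit `d + q j` lets `d` pass -/
theorem value {q : ℕ} {a : ℕ → F} {j d : ℕ} (hq : 2 ≤ q) (hT : IsT q a j d) :
    ∃ c₀ : F, ∀ c : F, IsP q (Function.update a (d + q * j) c) j d ↔ c = c₀ := by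
  obtain ⟨hd, h, hh, h0, hdeg⟩ := mem_SS.mp hT.1
  have hagree : ∀ c : F, ∀ m < d + q * j, a m = Function.update a (d + q * j) c m := by
    intro c m hm
    rw [Function.update_of_ne hm.ne]
  have hlam : h.coeff d ≠ 0 := by
    rw [← hdeg]
    exact fun h5 => h0 (leadingCoeff_eq_zero.mp h5)
  have hval : ∀ c : F, phi q (Function.update a (d + q * j) c) j h =
      h.coeff d * c + (h.coeff d * a (q * d + j) + ∑ i ∈ range d, h.coeff i * be q a i j) := by
    intro c
    rw [phi_eq q _ j h (n := d + 1) (by omega), sum_range_succ]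
    have h1 : ∑ i ∈ range d, h.coeff i * be q (Function.update a (d + q * j) c) i j =
        ∑ i ∈ range d, h.coeff i * be q a i j := by
      refine sum_congr rfl (fun i hi => ?_)
      obtain ⟨h4, h5⟩ := arith2 hq hd (mem_range.mp hi)
      unfold be
      rw [← hagree c _ h4, ← hagree c _ h5]
    rw [h1]
    unfold be
    rw [← hagree c _ (arith3 hq hd), Function.update_self]
    ring
  set R := h.coeff d * a (q * d + j) + ∑ i ∈ range d, h.coeff i * be q a i j with hR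
  refine ⟨-R / h.coeff d, fun c => ?_⟩
  have hTc := IsT_loc hq (hagree c) hT
  have hKc : h ∈ KK q (Function.update a (d + q * j) c) j :=
    KK_loc hq hd (hagree c) hdeg.le hh
  have h1 : IsP q (Function.update a (d + q * j) c) j d ↔
      phi q (Function.update a (d + q * j) c) j h = 0 := by
    constructor
    · intro hP
      exact hP.2 h hKc hdeg.le
    · intro hz
      refine ⟨hTc, fun w hw hle => ?_⟩
      rcases lt_or_eq_of_le hle with h2 | h2
      · exact hTc.2.2 w hw h2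
      · have h3 := elim_lead h2 hdeg
        have h4 : phi q (Function.update a (d + q * j) c) j
            (h.leadingCoeff • w - w.leadingCoeff • h) = 0 := by
          rcases h3 with h3 | h3
          · rw [h3, map_zero]
          · exact hTc.2.2 _ (Submodule.sub_mem _ (Submodule.smul_mem _ _ hw)
              (Submodule.smul_mem _ _ hKc)) h3
        rw [map_sub, map_smul, map_smul, hz, smul_zero, sub_zero, smul_eq_mul] at h4
        rcases mul_eq_zero.mp h4 with h5 | h5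
        · exact absurd (leadingCoeff_eq_zero.mp h5) h0
        · exact h5
  rw [h1, hval c]
  constructor
  · intro h2
    field_simp
    linear_combination h2
  · rintro rfl
    field_simp
    ring

open Classical in
/-- the weight of the digit `m` -/
noncomputable def ww (q j0 n : ℕ) (X Y : ℝ) (m : ℕ) (a : ℕ → F) : ℝ :=
  if ∃ j d, j0 < j ∧ j < n ∧ d + q * j = m ∧ IsP q a j d then X
  else if ∃ j d, j0 < j ∧ j < n ∧ d + q * j = m ∧ IsT q a j d then Y else 1

theorem ww_nonneg {q j0 n : ℕ} {X Y : ℝ} (hX : 0 ≤ X) (hY : 0 ≤ Y) (m : ℕ) (a : ℕ → F) :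
    0 ≤ ww q j0 n X Y m a := by
  unfold ww
  split_ifs
  · exact hX
  · exact hY
  · exact zero_le_one

theorem ww_loc {q j0 n : ℕ} (hq : 2 ≤ q) {X Y : ℝ} (m : ℕ) (a a' : ℕ → F)
    (ha : ∀ i ≤ m, a i = a' i) : ww q j0 n X Y m a = ww q j0 n X Y m a' := by
  have ha' : ∀ i ≤ m, a' i = a i := fun i hi => (ha i hi).symm
  have h1 : (∃ j d, j0 < j ∧ j < n ∧ d + q * j = m ∧ IsP q a j d) ↔
      (∃ j d, j0 < j ∧ j < n ∧ d + q * j = m ∧ IsP q a' j d) := by
    constructor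
    · rintro ⟨j, d, h1, h2, h3, h4⟩
      exact ⟨j, d, h1, h2, h3, IsP_loc hq (by rw [h3]; exact ha) h4⟩
    · rintro ⟨j, d, h1, h2, h3, h4⟩
      exact ⟨j, d, h1, h2, h3, IsP_loc hq (by rw [h3]; exact ha') h4⟩
  have h2 : (∃ j d, j0 < j ∧ j < n ∧ d + q * j = m ∧ IsT q a j d) ↔
      (∃ j d, j0 < j ∧ j < n ∧ d + q * j = m ∧ IsT q a' j d) := by
    constructor
    · rintro ⟨j, d, h1, h2, h3, h4⟩
      exact ⟨j, d, h1, h2, h3, IsT_loc hq (by rw [h3]; exact fun i hi => ha i hi.le) h4⟩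
    · rintro ⟨j, d, h1, h2, h3, h4⟩
      exact ⟨j, d, h1, h2, h3, IsT_loc hq (by rw [h3]; exact fun i hi => ha' i hi.le) h4⟩
  classical
  unfold ww
  exact if_congr h1 rfl (if_congr h2 rfl rfl)

theorem ww_sum [Fintype F] {q j0 n : ℕ} (hq : 2 ≤ q) {X Y : ℝ}
    (hXY : X + ((Fintype.card F : ℝ) - 1) * Y ≤ Fintype.card F) (m : ℕ) (a : ℕ → F) :
    ∑ c : F, ww q j0 n X Y m (Function.update a m c) ≤ Fintype.card F := by
  classical
  have hag : ∀ c : F, ∀ i < m, a i = Function.update a m c i := by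
    intro c i hi
    rw [Function.update_of_ne hi.ne]
  by_cases hT : ∃ j d, j0 < j ∧ j < n ∧ d + q * j = m ∧ IsT q a j d
  · obtain ⟨j, d, h1, h2, h3, h4⟩ := hT
    obtain ⟨c₀, hc₀⟩ := value hq h4
    rw [h3] at hc₀
    have hTc : ∀ c, IsT q (Function.update a m c) j d := fun c =>
      IsT_loc hq (by rw [h3]; exact hag c) h4
    have hww : ∀ c, ww q j0 n X Y m (Function.update a m c) = if c = c₀ then X else Y := by
      intro c
      have h5 : (∃ j d, j0 < j ∧ j < n ∧ d + q * j = m ∧ IsP q (Function.update a m c) j d) ↔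
          c = c₀ := by
        constructor
        · rintro ⟨j', d', h6, h7, h8, h9⟩
          obtain ⟨rfl, rfl⟩ := IsT_unique hq (hTc c) h9.1 (h3.trans h8.symm)
          exact (hc₀ c).mp h9
        · intro h6
          exact ⟨j, d, h1, h2, h3, (hc₀ c).mpr h6⟩
      have h6 : ∃ j d, j0 < j ∧ j < n ∧ d + q * j = m ∧ IsT q (Function.update a m c) j d :=
        ⟨j, d, h1, h2, h3, hTc c⟩
      unfold ww
      rw [if_pos h6]
      by_cases h7 : c = c₀
      · rw [if_pos (h5.mpr h7), if_pos h7]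
      · rw [if_neg (fun h8 => h7 (h5.mp h8)), if_neg h7]
    simp only [hww]
    rw [← Finset.add_sum_erase _ _ (mem_univ c₀), if_pos rfl]
    rw [Finset.sum_congr rfl (g := fun _ => Y) (fun c hc => if_neg (ne_of_mem_erase hc))]
    rw [sum_const, card_erase_of_mem (mem_univ _), card_univ, nsmul_eq_mul]
    have h8 : ((Fintype.card F - 1 : ℕ) : ℝ) = (Fintype.card F : ℝ) - 1 := by
      rw [Nat.cast_sub (Fintype.card_pos)]
      simp
    rw [h8]
    exact hXY
  · have hww : ∀ c, ww q j0 n X Y m (Function.update a m c) = 1 := by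
      intro c
      have h6 : ¬ ∃ j d, j0 < j ∧ j < n ∧ d + q * j = m ∧ IsT q (Function.update a m c) j d := by
        rintro ⟨j, d, h1, h2, h3, h4⟩
        exact hT ⟨j, d, h1, h2, h3, IsT_loc hq (by
          rw [h3]; exact fun i hi => (hag c i hi).symm) h4⟩
      have h5 : ¬ ∃ j d, j0 < j ∧ j < n ∧ d + q * j = m ∧ IsP q (Function.update a m c) j d := by
        rintro ⟨j, d, h1, h2, h3, h4⟩
        exact h6 ⟨j, d, h1, h2, h3, h4.1⟩
      unfold ww
      rw [if_neg h5, if_neg h6]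
    simp only [hww]
    simp

open Classical in
/-- the tested degrees at step `j` -/
noncomputable def TT (q : ℕ) (a : ℕ → F) (j : ℕ) : Finset ℕ := (range j).filter (IsT q a j)

open Classical in
theorem prod_ww {q j0 n : ℕ} (hq : 2 ≤ q) (X Y : ℝ) (a : ℕ → F) :
    ∏ m ∈ range ((q + 1) * n), ww q j0 n X Y m a =
      ∏ j ∈ Ioo j0 n, ∏ d ∈ TT q a j, (if IsP q a j d then X else Y) := by
  set P : Finset (Σ _ : ℕ, ℕ) := (Ioo j0 n).sigma (fun j => TT q a j) with hP
  have hPm : ∀ p, p ∈ P ↔ (j0 < p.1 ∧ p.1 < n) ∧ p.2 < p.1 ∧ IsT q a p.1 p.2 := by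
    intro p
    rw [hP, mem_sigma, mem_Ioo, TT, mem_filter, mem_range]
  rw [Finset.prod_sigma' (Ioo j0 n) (fun j => TT q a j) (fun j d => if IsP q a j d then X else Y)]
  set μ : (Σ _ : ℕ, ℕ) → ℕ := fun p => p.2 + q * p.1 with hμ
  have hinj : Set.InjOn μ (P : Set (Σ _ : ℕ, ℕ)) := by
    rintro ⟨j, d⟩ hp ⟨j', d'⟩ hp' he
    have h1 := (hPm _).mp (mem_coe.mp hp)
    have h2 := (hPm _).mp (mem_coe.mp hp')
    obtain ⟨h3, h4⟩ := IsT_unique hq h1.2.2 h2.2.2 he
    simp only at h3 h4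
    subst h3; subst h4; rfl
  have hww : ∀ p ∈ P, ww q j0 n X Y (μ p) a = if IsP q a p.1 p.2 then X else Y := by
    rintro ⟨j, d⟩ hp
    have h1 := (hPm _).mp hp
    simp only at h1
    have h5 : (∃ j' d', j0 < j' ∧ j' < n ∧ d' + q * j' = d + q * j ∧ IsP q a j' d') ↔
        IsP q a j d := by
      constructor
      · rintro ⟨j', d', h6, h7, h8, h9⟩
        obtain ⟨rfl, rfl⟩ := IsT_unique hq h1.2.2 h9.1 h8.symm
        exact h9
      · intro h6
        exact ⟨j, d, h1.1.1, h1.1.2, rfl, h6⟩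
    have h6 : ∃ j' d', j0 < j' ∧ j' < n ∧ d' + q * j' = d + q * j ∧ IsT q a j' d' :=
      ⟨j, d, h1.1.1, h1.1.2, rfl, h1.2.2⟩
    simp only [hμ]
    unfold ww
    by_cases h7 : IsP q a j d
    · rw [if_pos (h5.mpr h7), if_pos h7]
    · rw [if_neg (fun h8 => h7 (h5.mp h8)), if_pos h6, if_neg h7]
  have h1 : ∏ m ∈ P.image μ, ww q j0 n X Y m a = ∏ p ∈ P, (if IsP q a p.1 p.2 then X else Y) := by
    rw [prod_image hinj]
    exact prod_congr rfl hww
  rw [← h1]
  symm
  apply prod_subset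
  · intro m hm
    obtain ⟨⟨j, d⟩, hp, rfl⟩ := mem_image.mp hm
    have h2 := (hPm _).mp hp
    simp only at h2
    simp only [hμ, mem_range]
    have h3 : q * (j + 1) ≤ q * n := Nat.mul_le_mul_left q h2.1.2
    have h4 : (q + 1) * n = q * n + n := by ring
    have h5 : q * (j + 1) = q * j + q := by ring
    omega
  · intro m _ hm
    have h6 : ¬ ∃ j d, j0 < j ∧ j < n ∧ d + q * j = m ∧ IsT q a j d := by
      rintro ⟨j, d, h1, h2, h3, h4⟩
      exact hm (mem_image.mpr ⟨⟨j, d⟩, (hPm _).mpr ⟨⟨h1, h2⟩, (mem_SS.mp h4.1).1, h4⟩, h3⟩)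
    have h5 : ¬ ∃ j d, j0 < j ∧ j < n ∧ d + q * j = m ∧ IsP q a j d := by
      rintro ⟨j, d, h1, h2, h3, h4⟩
      exact h6 ⟨j, d, h1, h2, h3, h4.1⟩
    unfold ww
    rw [if_neg h5, if_neg h6]

end FR11
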