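import Pool.Agent.helper11.FR.Defs

open Polynomial Finset

namespace FR11

variable {F : Type} [Field F]

theorem pair_symm (q : ℕ) (a : ℕ → F) (h w : F[X]) {n : ℕ} (hh : h.natDegree < n)
    (hw : w.natDegree < n) :
    ∑ i ∈ range n, w.coeff i * phi q a i h = ∑ i ∈ range n, h.coeff i * phi q a i w := by
  have h1 : ∀ i, phi q a i h = ∑ u ∈ range n, h.coeff u * be q a u i := fun i => phi_eq q a i h hh
  have h2 : ∀ i, phi q a i w = ∑ u ∈ range n, w.coeff u * be q a u i := fun i => phi_eq q a i w hw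
  simp only [h1, h2, mul_sum]
  rw [sum_comm]
  refine sum_congr rfl (fun u _ => sum_congr rfl (fun i _ => ?_))
  rw [be_symm q a u i]
  ring

theorem KK_mono {q : ℕ} {a : ℕ → F} {i j : ℕ} (hij : i ≤ j) {h : F[X]} (hh : h ∈ KK q a j) :
    h ∈ KK q a i := fun u hu => hh u (lt_of_lt_of_le hu hij)

theorem mem_KK_succ {q : ℕ} {a : ℕ → F} {j : ℕ} {h : F[X]} :
    h ∈ KK q a (j + 1) ↔ h ∈ KK q a j ∧ phi q a j h = 0 := by
  constructor
  · intro hh
    exact ⟨KK_mono (Nat.le_succ j) hh, hh j (Nat.lt_succ_self j)⟩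
  · rintro ⟨h1, h2⟩ i hi
    rcases Nat.lt_succ_iff_lt_or_eq.mp hi with h3 | h3
    · exact h1 i h3
    · rw [h3]; exact h2

/-- eliminating the leading coefficient -/
theorem elim_lead {h w : F[X]} {e : ℕ} (hh : h.natDegree = e) (hw : w.natDegree = e) :
    (w.leadingCoeff • h - h.leadingCoeff • w) = 0 ∨
      (w.leadingCoeff • h - h.leadingCoeff • w).natDegree < e := by
  set g := w.leadingCoeff • h - h.leadingCoeff • w with hg
  have h1 : g.natDegree ≤ e := by
    rw [hg]
    refine (natDegree_sub_le _ _).trans (max_le ?_ ?_)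
    · exact (natDegree_smul_le _ _).trans hh.le
    · exact (natDegree_smul_le _ _).trans hw.le
  have h2 : g.coeff e = 0 := by
    rw [hg, coeff_sub, coeff_smul, coeff_smul, smul_eq_mul, smul_eq_mul]
    unfold leadingCoeff
    rw [hh, hw]
    ring
  rcases lt_or_eq_of_le h1 with h3 | h3
  · exact Or.inr h3
  · left
    have : g.leadingCoeff = 0 := by
      unfold leadingCoeff
      rw [h3]; exact h2
    exact leadingCoeff_eq_zero.mp this

/-- passing from `j` to `j + 1` -/
theorem trans (q : ℕ) (a : ℕ → F) (j : ℕ) :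
    ((∀ h ∈ KK q a j, h.natDegree < j → phi q a j h = 0) ∧ SS q a (j + 1) ⊆ insert j (SS q a j)) ∨
    ∃ e ∈ SS q a j, (∀ h ∈ KK q a j, h.natDegree < e → phi q a j h = 0) ∧
      (∃ h ∈ KK q a j, h.natDegree = e ∧ phi q a j h ≠ 0) ∧ SS q a (j + 1) ⊆ (SS q a j).erase e := by
  classical
  by_cases H : ∀ h ∈ KK q a j, h.natDegree < j → phi q a j h = 0
  · left
    refine ⟨H, ?_⟩
    intro d hd
    obtain ⟨hd1, h, hh, h0, hdeg⟩ := mem_SS.mp hd
    rcases Nat.lt_succ_iff_lt_or_eq.mp hd1 with h3 | h3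
    · exact mem_insert_of_mem (mem_SS.mpr ⟨h3, h, KK_mono (Nat.le_succ j) hh, h0, hdeg⟩)
    · rw [h3]; exact mem_insert_self _ _
  · right
    push Not at H
    obtain ⟨h₀, hh₀, hd₀, hp₀⟩ := H
    have hex : ∃ e, ∃ h ∈ KK q a j, h.natDegree = e ∧ phi q a j h ≠ 0 :=
      ⟨h₀.natDegree, h₀, hh₀, rfl, hp₀⟩
    set e := Nat.find hex with he
    obtain ⟨h, hh, hdeg, hp⟩ := Nat.find_spec hex
    have hmin : ∀ g ∈ KK q a j, g.natDegree < e → phi q a j g = 0 := by
      intro g hg hlt
      by_contra hne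
      exact Nat.find_min hex hlt ⟨g, hg, rfl, hne⟩
    have hej : e < j := lt_of_le_of_lt (Nat.find_min' hex ⟨h₀, hh₀, rfl, hp₀⟩) hd₀
    have hne : h ≠ 0 := by
      rintro rfl
      exact hp (map_zero _)
    refine ⟨e, mem_SS.mpr ⟨hej, h, hh, hne, hdeg⟩, hmin, ⟨h, hh, hdeg, hp⟩, ?_⟩
    intro d hd
    obtain ⟨hd1, w, hw, hw0, hwdeg⟩ := mem_SS.mp hd
    obtain ⟨hwj, hwp⟩ := mem_KK_succ.mp hw
    have hdj : d ≠ j := by
      intro hdj
      have h1 := pair_symm q a w h (n := j + 1) (by omega) (by omega)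
      have h2 : ∑ i ∈ range (j + 1), h.coeff i * phi q a i w = 0 := by
        refine sum_eq_zero (fun i hi => ?_)
        rw [hw i (mem_range.mp hi), mul_zero]
      have h3 : ∑ i ∈ range (j + 1), w.coeff i * phi q a i h = w.coeff j * phi q a j h := by
        rw [sum_range_succ, sum_eq_zero, zero_add]
        intro i hi
        rw [hh i (mem_range.mp hi), mul_zero]
      rw [h2, h3] at h1
      have h4 : w.coeff j ≠ 0 := by
        rw [← hdj, ← hwdeg]
        exact fun h5 => hw0 (leadingCoeff_eq_zero.mp h5)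
      exact (mul_ne_zero h4 hp) h1.symm
    have hde : d ≠ e := by
      intro hde
      have h1 := elim_lead hdeg (hwdeg.trans hde)
      have h2 : phi q a j (w.leadingCoeff • h - h.leadingCoeff • w) = 0 := by
        rcases h1 with h1 | h1
        · rw [h1, map_zero]
        · exact hmin _ (Submodule.sub_mem _ (Submodule.smul_mem _ _ hh)
            (Submodule.smul_mem _ _ hwj)) h1
      rw [map_sub, map_smul, map_smul, hwp, smul_zero, sub_zero, smul_eq_mul] at h2
      rcases mul_eq_zero.mp h2 with h3 | h3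
      · exact hw0 (leadingCoeff_eq_zero.mp h3)
      · exact hp h3
    refine mem_erase.mpr ⟨hde, mem_SS.mpr ⟨by omega, w, hwj, hw0, hwdeg⟩⟩

end FR11
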